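import Pool.Agent.X51.SparseTri.Four

set_option autoImplicit false

/-!
# Existence of the graphs
-/

namespace Pool.Agent.X51.SparseTri

open Finset Filter Topology

/-- the bound for `K_{s,t}` -/
noncomputable def CC (s t : ℕ) : ℝ := 2 ^ (t + 4) * Real.exp (2 ^ (s * t))

theorem CC_pos (s t : ℕ) : 0 < CC s t := by
  unfold CC
  positivity

abbrev KB (s t : ℕ) : SimpleGraph (Fin s ⊕ Fin t) := completeBipartiteGraph (Fin s) (Fin t)

/-- good graphs -/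
def Good (s k n : ℕ) (p : ℝ) (G : SimpleGraph (Fin n)) : Prop :=
  ((emb K2 G : ℝ) / ((n.descFactorial 2 : ℝ) * p ^ 1) - 1) ^ 2 ≤ 9 / k ∧
  4 * ((emb K2 G : ℝ) / ((n.descFactorial 2 : ℝ) * p ^ 1) - 1) - 1 / k ≤
    (emb C4 G : ℝ) / ((n.descFactorial 4 : ℝ) * p ^ 4) - 1 ∧
  (emb C4 G : ℝ) / ((n.descFactorial 4 : ℝ) * p ^ 4) - 1 ≤
    4 * ((emb K2 G : ℝ) / ((n.descFactorial 2 : ℝ) * p ^ 1) - 1) + 9 / k ∧
  (emb C3 G : ℝ) / ((n.descFactorial 3 : ℝ) * p ^ 3) ≤ 9 / 10 ∧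
  ∀ t, 1 ≤ t → t ≤ k →
    (emb (KB s t) G : ℝ) / ((n.descFactorial (s + t) : ℝ) * p ^ (s * t)) ≤ CC s t

theorem sum_half (k : ℕ) : ∑ t ∈ Icc 1 k, (1 / 2 : ℝ) ^ (t + 4) ≤ 1 / 16 := by
  have h : ∀ k : ℕ, ∑ t ∈ Icc 1 k, (1 / 2 : ℝ) ^ (t + 4) = 1 / 16 - (1 / 2) ^ (k + 4) := by
    intro k
    induction k with
    | zero => norm_num
    | succ k ih =>
      rw [sum_Icc_succ_top (by omega), ih]
      ring
  rw [h]
  have : (0 : ℝ) ≤ (1 / 2) ^ (k + 4) := by positivity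
  linarith

theorem pow_exp_le {x : ℝ} (m : ℕ) (hx : -1 ≤ x) : (1 + x) ^ m ≤ Real.exp (m * x) := by
  rw [Real.exp_nat_mul]
  apply pow_le_pow_left₀ (by linarith)
  rw [add_comm]
  exact Real.add_one_le_exp x

theorem desc2 (r : ℕ) : ((r + 4).descFactorial 2 : ℝ) = (r + 4) * (r + 3) := by
  have : (r + 4).descFactorial 2 = (r + 4) * (r + 3) := by
    simp only [Nat.descFactorial_succ, Nat.descFactorial_zero]
    have : r + 4 - 1 = r + 3 := by omega
    rw [this, Nat.sub_zero]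
    ring
  rw [this]
  push_cast
  ring

theorem desc4 (r : ℕ) :
    ((r + 4).descFactorial 4 : ℝ) = (r + 4) * (r + 3) * (r + 2) * (r + 1) := by
  have : (r + 4).descFactorial 4 = (r + 4) * (r + 3) * (r + 2) * (r + 1) := by
    simp only [Nat.descFactorial_succ, Nat.descFactorial_zero]
    have h1 : r + 4 - 1 = r + 3 := by omega
    have h2 : r + 4 - 2 = r + 2 := by omega
    have h3 : r + 4 - 3 = r + 1 := by omega
    rw [h1, h2, h3, Nat.sub_zero]
    ring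
  rw [this]
  push_cast
  ring

theorem poly_ineq (r : ℝ) (hr0 : 0 ≤ r) :
    (r + 4) * (r + 3) * (r + 2) * (r + 1) ≤ (r + 3) ^ 4 := by
  have h : (r + 3) ^ 4 - (r + 4) * (r + 3) * (r + 2) * (r + 1) =
      2 * r ^ 3 + 19 * r ^ 2 + 58 * r + 57 := by ring
  have h2 : 0 ≤ 2 * r ^ 3 + 19 * r ^ 2 + 58 * r + 57 := by positivity
  linarith

theorem low_bound {n : ℕ} (hn : 4 ≤ n) (G : SimpleGraph (Fin n)) (p : ℝ) (hp0 : 0 < p)
    (x y η : ℝ) (hx : (emb K2 G : ℝ) = (1 + x) * ((n.descFactorial 2 : ℝ) * p ^ 1))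
    (hy : (emb C4 G : ℝ) + 2 * (n : ℝ) ^ 3 = (1 + y + η) * ((n.descFactorial 4 : ℝ) * p ^ 4))
    (hx1 : 0 ≤ 1 + x) : 0 ≤ y - 4 * x + η := by
  have h1 := emb_C4_ge G
  obtain ⟨r, rfl⟩ : ∃ r : ℕ, n = r + 4 := ⟨n - 4, by omega⟩
  rw [desc2] at hx
  rw [desc4] at hy
  have hr0 : (0 : ℝ) ≤ r := Nat.cast_nonneg r
  have hp4 : 0 < p ^ 4 := by positivity
  rw [hx, hy] at h1
  push_cast at h1
  have hr4 : (0 : ℝ) < (r + 4) ^ 4 := by positivity
  have h2 : (1 + x) ^ 4 * ((r + 3 : ℝ) ^ 4 * p ^ 4) ≤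
      (1 + y + η) * ((r + 4) * (r + 3) * (r + 2) * (r + 1) * p ^ 4) := by
    have h3 : ((r : ℝ) + 4) ^ 4 * ((1 + x) ^ 4 * ((r + 3 : ℝ) ^ 4 * p ^ 4)) ≤
        (r + 4) ^ 4 * ((1 + y + η) * ((r + 4) * (r + 3) * (r + 2) * (r + 1) * p ^ 4)) := by
      refine le_trans (le_of_eq ?_) h1
      ring
    exact le_of_mul_le_mul_left h3 hr4
  have h6 : (1 + x) ^ 4 * (((r : ℝ) + 4) * (r + 3) * (r + 2) * (r + 1) * p ^ 4) ≤
      (1 + y + η) * (((r : ℝ) + 4) * (r + 3) * (r + 2) * (r + 1) * p ^ 4) := by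
    refine le_trans ?_ h2
    apply mul_le_mul_of_nonneg_left _ (pow_nonneg hx1 4)
    exact mul_le_mul_of_nonneg_right (poly_ineq r hr0) hp4.le
  have h7 := le_of_mul_le_mul_right h6 (by positivity)
  have h8 := one_add_mul_le_pow (a := x) (by linarith) 4
  push_cast at h8
  linarith

set_option maxHeartbeats 2000000 in
theorem good_exists_aux (s k n : ℕ) (hk : 2 ≤ k) (hn : s + k + 4 ≤ n) (p : ℝ) (hp0 : 0 < p)
    (hp : p * 2 ^ (k ^ 3) ≤ 1)
    (hη : 2 * (n : ℝ) ^ 3 / ((n.descFactorial 4 : ℝ) * p ^ 4) ≤ 1 / k)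
    (hv : 2 / ((n.descFactorial 2 : ℝ) * p ^ 1) ≤ 1 / (2 * k)) :
    ∃ G : SimpleGraph (Fin n), Good s k n p G := by
  have hkR : (2 : ℝ) ≤ k := by exact_mod_cast hk
  have hk0 : (0 : ℝ) < k := by linarith
  have hd : ∀ r : ℕ, r ≤ s + k + 4 → 0 < (n.descFactorial r : ℝ) := by
    intro r hr
    have : 0 < n.descFactorial r := Nat.descFactorial_pos.2 (by omega)
    exact_mod_cast this
  set ε : ℝ := 1 / k with hε
  have hε0 : 0 ≤ ε := by positivity
  have hε1 : ε ≤ 1 := by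
    rw [hε, div_le_one hk0]
    linarith
  set m : ℕ := k ^ 3 with hm
  have hmR : (m : ℝ) = (k : ℝ) ^ 3 := by rw [hm]; push_cast; ring
  set K : ℝ := k / 10 with hK
  have hK0 : 0 < K := by positivity
  set μ2 : ℝ := (n.descFactorial 2 : ℝ) * p ^ 1 with hμ2
  set μ3 : ℝ := (n.descFactorial 3 : ℝ) * p ^ 3 with hμ3
  set μ4 : ℝ := (n.descFactorial 4 : ℝ) * p ^ 4 with hμ4
  set η : ℝ := 2 * (n : ℝ) ^ 3 / μ4 with hηdef
  have hμ2p : 0 < μ2 := mul_pos (hd 2 (by omega)) (by positivity)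
  have hμ3p : 0 < μ3 := mul_pos (hd 3 (by omega)) (by positivity)
  have hμ4p : 0 < μ4 := mul_pos (hd 4 (by omega)) (by positivity)
  let μt : ℕ → ℝ := fun t => (n.descFactorial (s + t) : ℝ) * p ^ (s * t)
  have hμt : ∀ t, t ≤ k → 0 < μt t := fun t ht => mul_pos (hd _ (by omega)) (by positivity)
  -- the functional
  let X2 : Finset (Sym2 (Fin n)) → ℝ := fun S => (emb K2 (GS S) : ℝ)
  let X3 : Finset (Sym2 (Fin n)) → ℝ := fun S => (emb C3 (GS S) : ℝ)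
  let X4 : Finset (Sym2 (Fin n)) → ℝ := fun S => (emb C4 (GS S) : ℝ)
  let Xt : ℕ → Finset (Sym2 (Fin n)) → ℝ := fun t S => (emb (KB s t) (GS S) : ℝ)
  let Φ : Finset (Sym2 (Fin n)) → ℝ := fun S =>
    K / μ2 ^ 2 * X2 S ^ 2 + (-6 * K / μ2 * X2 S + (K / μ4 * X4 S + (1 / μ3 * X3 S +
      (∑ t ∈ Icc 1 k, (1 / (CC s t * μt t)) * Xt t S + K * (4 + η)))))
  have hE : Ex m ε p Φ < 9 / 10 := by
    have e1 := Ex_add m ε p (fun S => K / μ2 ^ 2 * X2 S ^ 2) (fun S =>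
      (-6 * K / μ2 * X2 S + (K / μ4 * X4 S + (1 / μ3 * X3 S +
      (∑ t ∈ Icc 1 k, (1 / (CC s t * μt t)) * Xt t S + K * (4 + η))))))
    have e2 := Ex_add m ε p (fun S => -6 * K / μ2 * X2 S) (fun S =>
      (K / μ4 * X4 S + (1 / μ3 * X3 S +
      (∑ t ∈ Icc 1 k, (1 / (CC s t * μt t)) * Xt t S + K * (4 + η)))))
    have e3 := Ex_add m ε p (fun S => K / μ4 * X4 S) (fun S => (1 / μ3 * X3 S +
      (∑ t ∈ Icc 1 k, (1 / (CC s t * μt t)) * Xt t S + K * (4 + η))))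
    have e4 := Ex_add m ε p (fun S => 1 / μ3 * X3 S) (fun S =>
      (∑ t ∈ Icc 1 k, (1 / (CC s t * μt t)) * Xt t S + K * (4 + η)))
    have e5 := Ex_add m ε p (fun S => ∑ t ∈ Icc 1 k, (1 / (CC s t * μt t)) * Xt t S)
      (fun _ => K * (4 + η))
    rw [Ex_const, Ex_sum] at e5
    rw [Ex_mul] at e1 e2 e3 e4
    change Ex m ε p Φ = _ at e1
    have a2 : Ex m ε p X2 = μ2 := by
      rw [Ex_K2, hμ2]
      ring
    have a2' : Ex m ε p (fun S => X2 S ^ 2) ≤ μ2 ^ 2 + 2 * μ2 := by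
      refine (Ex_K2_sq m ε p hp0.le).trans (le_of_eq ?_)
      rw [hμ2]
      ring
    have a3 : Ex m ε p X3 = μ3 * (1 - ε ^ 3) ^ m := by
      rw [Ex_C3, hμ3]
      ring
    have a4 : Ex m ε p X4 = μ4 * (1 + ε ^ 4) ^ m := by
      rw [Ex_C4, hμ4]
      ring
    have b3 : (1 - ε ^ 3) ^ m ≤ 37 / 100 := by
      have h1 : (1 + -(ε ^ 3)) ^ m ≤ Real.exp (m * -(ε ^ 3)) := by
        apply pow_exp_le
        have : ε ^ 3 ≤ 1 := pow_le_one₀ hε0 hε1
        linarith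
      have h2 : (m : ℝ) * -(ε ^ 3) = -1 := by
        rw [hmR, hε]
        field_simp
      rw [h2, ← sub_eq_add_neg] at h1
      have := Real.exp_neg_one_lt_d9
      linarith
    have b4 : (1 + ε ^ 4) ^ m ≤ 1 + 2 / k := by
      have h1 : (1 + ε ^ 4) ^ m ≤ Real.exp (m * ε ^ 4) := by
        apply pow_exp_le
        have : 0 ≤ ε ^ 4 := by positivity
        linarith
      have h2 : (m : ℝ) * ε ^ 4 = 1 / k := by
        rw [hmR, hε]
        field_simp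
      rw [h2] at h1
      refine h1.trans ?_
      have h3 : (1 : ℝ) / k ≤ 1 / 2 := one_div_le_one_div_of_le (by norm_num) hkR
      have h4 := Real.exp_bound_div_one_sub_of_interval (x := (1 : ℝ) / k) (by positivity)
        (by linarith)
      refine h4.trans ?_
      rw [div_le_iff₀ (by linarith)]
      have h5 : (2 : ℝ) / k = 2 * (1 / k) := by ring
      rw [h5]
      nlinarith [show (0 : ℝ) ≤ 1 / k by positivity]
    have bt : ∀ t ∈ Icc 1 k, Ex m ε p (fun S => (1 / (CC s t * μt t)) * Xt t S) ≤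
        (1 / 2 : ℝ) ^ (t + 4) := by
      intro t ht
      rw [mem_Icc] at ht
      rw [Ex_mul]
      have h1 : Ex m ε p (Xt t) ≤ μt t * Real.exp (2 ^ (s * t)) := by
        refine (Ex_Kst m ε p hε0 hε1 hp0.le s t).trans ?_
        have h2 : (1 + 2 ^ (s * t) * ε ^ 3) ^ m ≤ Real.exp (2 ^ (s * t)) := by
          have h3 : (1 + 2 ^ (s * t) * ε ^ 3) ^ m ≤ Real.exp (m * (2 ^ (s * t) * ε ^ 3)) := by
            apply pow_exp_le
            have : 0 ≤ 2 ^ (s * t) * ε ^ 3 := by positivity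
            linarith
          have h4 : (m : ℝ) * (2 ^ (s * t) * ε ^ 3) = 2 ^ (s * t) := by
            rw [hmR, hε]
            field_simp
          rwa [h4] at h3
        have h5 : p ^ (s * t) * (n.descFactorial (s + t) : ℝ) = μt t := mul_comm _ _
        rw [h5]
        exact mul_le_mul_of_nonneg_left h2 (hμt t ht.2).le
      have hpos : 0 < CC s t * μt t := mul_pos (CC_pos s t) (hμt t ht.2)
      have h6 : 1 / (CC s t * μt t) * Ex m ε p (Xt t) ≤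
          1 / (CC s t * μt t) * (μt t * Real.exp (2 ^ (s * t))) :=
        mul_le_mul_of_nonneg_left h1 (by positivity)
      refine h6.trans (le_of_eq ?_)
      have hμ0 := (hμt t ht.2).ne'
      have hexp := (Real.exp_pos ((2 : ℝ) ^ (s * t))).ne'
      unfold CC
      rw [one_div_pow]
      field_simp
    have bsum := (sum_le_sum bt).trans (sum_half k)
    rw [e1, e2, e3, e4, e5]
    change K / μ2 ^ 2 * Ex m ε p (fun S => X2 S ^ 2) + (-6 * K / μ2 * Ex m ε p X2 +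
      (K / μ4 * Ex m ε p X4 + (1 / μ3 * Ex m ε p X3 +
      (∑ t ∈ Icc 1 k, Ex m ε p (fun S => (1 / (CC s t * μt t)) * Xt t S) + K * (4 + η))))) < _
    rw [a2, a3, a4]
    have c1 : K / μ2 ^ 2 * Ex m ε p (fun S => X2 S ^ 2) ≤ K + K * (2 / μ2) := by
      refine (mul_le_mul_of_nonneg_left a2' (by positivity)).trans (le_of_eq ?_)
      field_simp
    have c2 : -6 * K / μ2 * μ2 = -6 * K := by field_simp
    have c4 : K / μ4 * (μ4 * (1 + ε ^ 4) ^ m) = K * (1 + ε ^ 4) ^ m := by field_simp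
    have c3 : 1 / μ3 * (μ3 * (1 - ε ^ 3) ^ m) = (1 - ε ^ 3) ^ m := by field_simp
    rw [c2, c3, c4]
    have d1 : K * (2 / μ2) ≤ 1 / 20 := by
      refine (mul_le_mul_of_nonneg_left hv hK0.le).trans (le_of_eq ?_)
      rw [hK]
      field_simp
      norm_num
    have d2 : K * (1 + ε ^ 4) ^ m ≤ K + 1 / 5 := by
      refine (mul_le_mul_of_nonneg_left b4 hK0.le).trans (le_of_eq ?_)
      rw [hK]
      field_simp
      ring
    have d3 : K * η ≤ 1 / 10 := by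
      refine (mul_le_mul_of_nonneg_left hη hK0.le).trans (le_of_eq ?_)
      rw [hK, hε]
      field_simp
    have d4 : K * (4 + η) = 4 * K + K * η := by ring
    rw [d4]
    linarith
  obtain ⟨S, _, hS⟩ := exists_lt m hε0 hε1 hp0.le hp Φ _ hE
  refine ⟨GS S, ?_⟩
  -- the deterministic inequality
  set x : ℝ := (emb K2 (GS S) : ℝ) / μ2 - 1 with hx
  set y : ℝ := (emb C4 (GS S) : ℝ) / μ4 - 1 with hy
  have hx2 : (emb K2 (GS S) : ℝ) = (1 + x) * μ2 := by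
    rw [hx]; field_simp; ring
  have hlow : 0 ≤ y - 4 * x + η := by
    have hx1 : 0 ≤ 1 + x := by
      have : 1 + x = (emb K2 (GS S) : ℝ) / μ2 := by rw [hx]; ring
      rw [this]
      positivity
    refine low_bound (by omega) (GS S) p hp0 x y η hx2 ?_ hx1
    change _ = (1 + y + η) * μ4
    rw [hy, hηdef]
    field_simp
    ring
  have hΦ : Φ S = K * x ^ 2 + K * (y - 4 * x + η) + (X3 S / μ3 +
      ∑ t ∈ Icc 1 k, (1 / (CC s t * μt t)) * Xt t S) := by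
    change K / μ2 ^ 2 * X2 S ^ 2 + (-6 * K / μ2 * X2 S + (K / μ4 * X4 S + (1 / μ3 * X3 S +
      (∑ t ∈ Icc 1 k, (1 / (CC s t * μt t)) * Xt t S + K * (4 + η))))) = _
    have e2 : X2 S = (1 + x) * μ2 := hx2
    have e4 : X4 S = (1 + y) * μ4 := by
      change (emb C4 (GS S) : ℝ) = _
      rw [hy]; field_simp; ring
    rw [e2, e4]
    field_simp
    ring
  rw [hΦ] at hS
  have n1 : 0 ≤ K * x ^ 2 := by positivity
  have n2 : 0 ≤ K * (y - 4 * x + η) := mul_nonneg hK0.le hlow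
  have n3 : 0 ≤ X3 S / μ3 := div_nonneg (Nat.cast_nonneg _) hμ3p.le
  have n4t : ∀ t ∈ Icc 1 k, 0 ≤ (1 / (CC s t * μt t)) * Xt t S := by
    intro t ht
    have := mul_pos (CC_pos s t) (hμt t (mem_Icc.1 ht).2)
    have h2 : 0 ≤ Xt t S := Nat.cast_nonneg _
    positivity
  have n4 := sum_nonneg n4t
  refine ⟨?_, ?_, ?_, ?_, ?_⟩
  · have h1 : K * x ^ 2 ≤ 9 / 10 := by linarith
    rw [hK] at h1
    rw [le_div_iff₀ hk0]
    nlinarith
  · have : η ≤ 1 / k := hη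
    linarith
  · have h1 : K * (y - 4 * x + η) ≤ 9 / 10 := by linarith
    have h2 : y - 4 * x + η ≤ 9 / k := by
      rw [hK] at h1
      rw [le_div_iff₀ hk0]
      nlinarith
    have h3 : 0 ≤ η := by
      rw [hηdef]
      positivity
    linarith
  · change X3 S / μ3 ≤ _
    linarith
  · intro t ht1 htk
    have ht : t ∈ Icc 1 k := mem_Icc.2 ⟨ht1, htk⟩
    have h1 := single_le_sum n4t ht
    have h2 : (1 / (CC s t * μt t)) * Xt t S ≤ 1 := by linarith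
    have hc := CC_pos s t
    have hm' := hμt t htk
    change Xt t S / μt t ≤ CC s t
    rw [div_le_iff₀ hm']
    rw [one_div, inv_mul_le_iff₀ (mul_pos hc hm')] at h2
    linarith

end Pool.Agent.X51.SparseTri
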