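import Pool.Agent.X51.SparseTri.Exist

set_option autoImplicit false
set_option linter.unusedSimpArgs false

/-!
# Graphs with very few triangles and bounded counts of all graphs
-/

namespace Pool.Agent.X51.SparseTri

open Finset Filter Topology

variable {n : ℕ}

/-! ### the expectation of a product of edge values is nonnegative -/

theorem EE_prod_nonneg (Q : Finset (Sym2 (Fin n))) : 0 ≤ EE (fun t => ∏ e ∈ Q, ev t e) := by
  classical
  have h : ∀ Q : Finset (Sym2 (Fin n)), ∃ d : Fin n → ℕ, ∀ t : Fin n → Bool,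
      ∏ e ∈ Q, ev t e = ∏ v, sg (t v) ^ d v := by
    intro Q
    induction Q using Finset.induction_on with
    | empty => exact ⟨fun _ => 0, fun t => by simp⟩
    | insert e Q he ih =>
      obtain ⟨d, hd⟩ := ih
      induction e using Sym2.ind with
      | _ a b =>
        refine ⟨fun v => d v + ((if v = a then 1 else 0) + (if v = b then 1 else 0)),
          fun t => ?_⟩
        rw [prod_insert he, hd t, ev_mk]
        simp_rw [pow_add]
        rw [prod_mul_distrib, prod_mul_distrib]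
        have h1 : ∀ c : Fin n, ∏ v, sg (t v) ^ (if v = c then 1 else 0) = sg (t c) := by
          intro c
          rw [prod_eq_single c]
          · simp
          · intro v _ hv
            simp [hv]
          · simp
        rw [h1, h1]
        ring
  obtain ⟨d, hd⟩ := h Q
  unfold EE
  apply div_nonneg _ (by positivity)
  simp_rw [hd]
  have h2 : ∑ t : Fin n → Bool, ∏ v, sg (t v) ^ d v = ∏ v, ∑ b : Bool, sg b ^ d v := by
    rw [Finset.prod_univ_sum, Fintype.piFinset_univ]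
  rw [h2]
  apply prod_nonneg
  intro v _
  rw [Fintype.sum_bool]
  simp only [sg, if_true, one_pow, Bool.false_eq_true, if_false]
  rcases neg_one_pow_eq_or ℝ (d v) with h | h <;> rw [h] <;> norm_num

theorem psi_le4 (ε : ℝ) (h0 : 0 ≤ ε) (h1 : ε ≤ 1) (P : Finset (Sym2 (Fin n)))
    (hP : ∀ e ∈ P, ¬ e.IsDiag) : psi ε P ≤ 1 + 2 ^ P.card * ε ^ 4 := by
  classical
  unfold psi
  have hexp : ∀ t : Fin n → Bool, ∏ e ∈ P, (1 - ε * ev t e) =
      ∑ Q ∈ P.powerset, ∏ e ∈ Q, (-ε * ev t e) := by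
    intro t
    rw [← prod_one_add]
    apply prod_congr rfl
    intro e _
    ring
  simp_rw [hexp]
  rw [EE_sum]
  have hterm : ∀ Q ∈ P.powerset, EE (fun t => ∏ e ∈ Q, (-ε * ev t e)) ≤
      (if Q = ∅ then 1 else 0) + ε ^ 4 := by
    intro Q hQ
    rw [mem_powerset] at hQ
    have hε3 : 0 ≤ ε ^ 4 := pow_nonneg h0 4
    by_cases hc0 : Q = ∅
    · subst hc0
      simp only [prod_empty, if_true]
      rw [EE_one]
      linarith
    · rw [if_neg hc0, zero_add]
      have hpos : 0 < Q.card := card_pos.2 (nonempty_iff_ne_empty.2 hc0)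
      by_cases hc1 : Q.card = 1
      · obtain ⟨e, rfl⟩ := card_eq_one.1 hc1
        simp only [prod_singleton]
        rw [EE_const_mul, EE_ev (hP e (hQ (mem_singleton_self e)))]
        simpa using hε3
      · by_cases hc2 : Q.card = 2
        · obtain ⟨e, e', hne, rfl⟩ := card_eq_two.1 hc2
          simp only [prod_pair hne]
          have : (fun t : Fin n → Bool => (-ε * ev t e) * (-ε * ev t e')) =
              fun t => ε ^ 2 * (ev t e * ev t e') := by
            funext t; ring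
          rw [this, EE_const_mul, EE_ev_mul (hP e (hQ (by simp))) (hP e' (hQ (by simp))) hne]
          simpa using hε3
        · by_cases hc3 : Q.card = 3
          · have h4 : (fun t : Fin n → Bool => ∏ e ∈ Q, (-ε * ev t e)) =
                fun t => (-ε) ^ 3 * ∏ e ∈ Q, ev t e := by
              funext t
              rw [prod_mul_distrib, prod_const, hc3]
            rw [h4, EE_const_mul]
            have h5 := EE_prod_nonneg Q
            have h6 : (-ε) ^ 3 ≤ 0 := by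
              have : (-ε) ^ 3 = -(ε ^ 3) := by ring
              rw [this]
              have : 0 ≤ ε ^ 3 := pow_nonneg h0 3
              linarith
            have := mul_nonpos_of_nonpos_of_nonneg h6 h5
            linarith
          · have h3 : 4 ≤ Q.card := by omega
            have hle : EE (fun t => ∏ e ∈ Q, (-ε * ev t e)) ≤
                EE (fun _ : Fin n → Bool => ε ^ 4 * 1) := by
              apply EE_le
              intro t
              rw [mul_one]
              refine le_trans (le_abs_self _) ?_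
              rw [abs_prod]
              have : ∀ e ∈ Q, |-ε * ev t e| = ε := by
                intro e _
                rw [abs_mul, abs_neg, abs_of_nonneg h0, ev_abs, mul_one]
              rw [prod_congr rfl this, prod_const]
              exact pow_le_pow_of_le_one h0 h1 h3
            rw [EE_const_mul, EE_one, mul_one] at hle
            exact hle
  refine (sum_le_sum hterm).trans ?_
  rw [sum_add_distrib, sum_ite_eq', if_pos (empty_mem_powerset P), sum_const, card_powerset]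
  simp

theorem Ex_F (m : ℕ) (ε p : ℝ) (h0 : 0 ≤ ε) (h1 : ε ≤ 1) (hp : 0 ≤ p) {v : ℕ}
    (F : SimpleGraph (Fin v)) :
    Ex m ε p (fun S : Finset (Sym2 (Fin n)) => (emb F (GS S) : ℝ)) ≤
      p ^ F.edgeSet.ncard * n.descFactorial v * (1 + 2 ^ F.edgeSet.ncard * ε ^ 4) ^ m := by
  classical
  unfold Ex
  have hc : F.edgeFinset.card = F.edgeSet.ncard := by
    rw [Set.ncard_eq_toFinset_card']
    rfl
  rw [mu_emb, hc, mul_assoc]
  apply mul_le_mul_of_nonneg_left _ (pow_nonneg hp _)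
  have : ∀ f ∈ (univ : Finset (Fin v ↪ Fin n)), psi ε (PF F f) ^ m ≤
      (1 + 2 ^ F.edgeSet.ncard * ε ^ 4) ^ m := by
    intro f _
    apply pow_le_pow_left₀
    · unfold psi EE
      apply div_nonneg _ (by positivity)
      apply sum_nonneg
      intro t' _
      apply prod_nonneg
      intro e _
      have := ev_abs t' e
      have h2 : ev t' e ≤ 1 := this ▸ le_abs_self _
      nlinarith
    · have := psi_le4 ε h0 h1 (PF F f) (fun e he => mem_E0.1 (PF_sub _ f he))
      rwa [PF_card, hc] at this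
  refine (sum_le_sum this).trans ?_
  rw [sum_const, nsmul_eq_mul, card_embeddings]

/-- the bound for the counts of `F` -/
noncomputable def CF {v : ℕ} (F : SimpleGraph (Fin v)) : ℝ :=
  2 ^ (v + 4) * (Fintype.card (SimpleGraph (Fin v)) : ℝ) * Real.exp (2 ^ F.edgeSet.ncard)

theorem CF_pos {v : ℕ} (F : SimpleGraph (Fin v)) : 0 < CF F := by
  unfold CF
  have : 0 < Fintype.card (SimpleGraph (Fin v)) := Fintype.card_pos
  positivity

/-- good graphs -/
def Good2 (k n : ℕ) (p : ℝ) (G : SimpleGraph (Fin n)) : Prop :=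
  ((emb K2 G : ℝ) / ((n.descFactorial 2 : ℝ) * p ^ 1) - 1) ^ 2 ≤ 9 / k ∧
  4 * ((emb K2 G : ℝ) / ((n.descFactorial 2 : ℝ) * p ^ 1) - 1) - 1 / k ≤
    (emb C4 G : ℝ) / ((n.descFactorial 4 : ℝ) * p ^ 4) - 1 ∧
  (emb C4 G : ℝ) / ((n.descFactorial 4 : ℝ) * p ^ 4) - 1 ≤
    4 * ((emb K2 G : ℝ) / ((n.descFactorial 2 : ℝ) * p ^ 1) - 1) + 9 / k ∧
  (emb C3 G : ℝ) / ((n.descFactorial 3 : ℝ) * p ^ 3) ≤ 9 / k ∧
  ∀ v, v ≤ k → ∀ F : SimpleGraph (Fin v),
    (emb F G : ℝ) / ((n.descFactorial v : ℝ) * p ^ F.edgeSet.ncard) ≤ CF F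

theorem sum_half' (k : ℕ) : ∑ t ∈ range (k + 1), (1 / 2 : ℝ) ^ (t + 4) ≤ 1 / 8 := by
  have h : ∀ k : ℕ, ∑ t ∈ range k, (1 / 2 : ℝ) ^ (t + 4) = 1 / 8 - (1 / 2) ^ (k + 3) := by
    intro k
    induction k with
    | zero => norm_num
    | succ k ih =>
      rw [sum_range_succ, ih]
      ring
  rw [h]
  have : (0 : ℝ) ≤ (1 / 2) ^ (k + 1 + 3) := by positivity
  linarith

set_option maxHeartbeats 4000000 in
theorem good2_exists_aux (k n : ℕ) (hk : 2 ≤ k) (hn : k + 4 ≤ n) (p : ℝ) (hp0 : 0 < p)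
    (hp : p * 2 ^ (k ^ 7) ≤ 1)
    (hη : 2 * (n : ℝ) ^ 3 / ((n.descFactorial 4 : ℝ) * p ^ 4) ≤ 1 / k)
    (hv : 2 / ((n.descFactorial 2 : ℝ) * p ^ 1) ≤ 1 / (2 * k)) :
    ∃ G : SimpleGraph (Fin n), Good2 k n p G := by
  have hkR : (2 : ℝ) ≤ k := by exact_mod_cast hk
  have hk0 : (0 : ℝ) < k := by linarith
  have hd : ∀ r : ℕ, r ≤ k + 4 → 0 < (n.descFactorial r : ℝ) := by
    intro r hr
    have : 0 < n.descFactorial r := Nat.descFactorial_pos.2 (by omega)
    exact_mod_cast this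
  obtain ⟨ε, hε⟩ : ∃ ε : ℝ, ε = 1 / (k : ℝ) ^ 2 := ⟨_, rfl⟩
  have hε0 : 0 ≤ ε := by rw [hε]; positivity
  have hε1 : ε ≤ 1 := by
    rw [hε, div_le_one (by positivity)]
    nlinarith
  obtain ⟨m, hm⟩ : ∃ m : ℕ, m = k ^ 7 := ⟨_, rfl⟩
  rw [← hm] at hp
  have hmR : (m : ℝ) = (k : ℝ) ^ 7 := by rw [hm]; push_cast; ring
  have hme3 : (m : ℝ) * ε ^ 3 = k := by
    rw [hmR, hε]
    field_simp
  have hme4 : (m : ℝ) * ε ^ 4 = 1 / k := by
    rw [hmR, hε]
    field_simp
  obtain ⟨K, hK⟩ : ∃ K : ℝ, K = k / 10 := ⟨_, rfl⟩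
  have hK0 : 0 < K := by rw [hK]; positivity
  obtain ⟨μ2, hμ2⟩ : ∃ μ2 : ℝ, μ2 = (n.descFactorial 2 : ℝ) * p ^ 1 := ⟨_, rfl⟩
  obtain ⟨μ3, hμ3⟩ : ∃ μ3 : ℝ, μ3 = (n.descFactorial 3 : ℝ) * p ^ 3 := ⟨_, rfl⟩
  obtain ⟨μ4, hμ4⟩ : ∃ μ4 : ℝ, μ4 = (n.descFactorial 4 : ℝ) * p ^ 4 := ⟨_, rfl⟩
  obtain ⟨η, hηdef⟩ : ∃ η : ℝ, η = 2 * (n : ℝ) ^ 3 / μ4 := ⟨_, rfl⟩
  rw [← hμ2] at hv
  rw [← hμ4, ← hηdef] at hη
  have hμ2p : 0 < μ2 := by rw [hμ2]; exact mul_pos (hd 2 (by omega)) (by positivity)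
  have hμ3p : 0 < μ3 := by rw [hμ3]; exact mul_pos (hd 3 (by omega)) (by positivity)
  have hμ4p : 0 < μ4 := by rw [hμ4]; exact mul_pos (hd 4 (by omega)) (by positivity)
  let μF : (v : ℕ) → SimpleGraph (Fin v) → ℝ := fun v F =>
    (n.descFactorial v : ℝ) * p ^ F.edgeSet.ncard
  have hμF : ∀ v, v ≤ k → ∀ F : SimpleGraph (Fin v), 0 < μF v F := fun v hv F =>
    mul_pos (hd _ (by omega)) (by positivity)
  -- the functional
  let X2 : Finset (Sym2 (Fin n)) → ℝ := fun S => (emb K2 (GS S) : ℝ)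
  let X3 : Finset (Sym2 (Fin n)) → ℝ := fun S => (emb C3 (GS S) : ℝ)
  let X4 : Finset (Sym2 (Fin n)) → ℝ := fun S => (emb C4 (GS S) : ℝ)
  let XF : (v : ℕ) → SimpleGraph (Fin v) → Finset (Sym2 (Fin n)) → ℝ :=
    fun v F S => (emb F (GS S) : ℝ)
  let Y : Finset (Sym2 (Fin n)) → ℝ := fun S =>
    ∑ v ∈ range (k + 1), ∑ F : SimpleGraph (Fin v), (1 / (CF F * μF v F)) * XF v F S
  let Φ : Finset (Sym2 (Fin n)) → ℝ := fun S =>
    K / μ2 ^ 2 * X2 S ^ 2 + (-6 * K / μ2 * X2 S + (K / μ4 * X4 S + (K / μ3 * X3 S +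
      (Y S + K * (4 + η)))))
  have hEY : Ex m ε p Y ≤ 1 / 8 := by
    change Ex m ε p (fun S => ∑ v ∈ range (k + 1), ∑ F : SimpleGraph (Fin v),
      (1 / (CF F * μF v F)) * XF v F S) ≤ _
    rw [Ex_sum]
    refine le_trans (sum_le_sum ?_) (sum_half' k)
    intro v hv
    rw [mem_range] at hv
    rw [Ex_sum]
    have h1 : ∀ F ∈ (univ : Finset (SimpleGraph (Fin v))),
        Ex m ε p (fun S => (1 / (CF F * μF v F)) * XF v F S) ≤
        (1 / 2 : ℝ) ^ (v + 4) / (Fintype.card (SimpleGraph (Fin v)) : ℝ) := by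
      intro F _
      rw [Ex_mul]
      have h1 : Ex m ε p (XF v F) ≤ μF v F * Real.exp (2 ^ F.edgeSet.ncard) := by
        refine (Ex_F m ε p hε0 hε1 hp0.le F).trans ?_
        have h2 : (1 + 2 ^ F.edgeSet.ncard * ε ^ 4) ^ m ≤ Real.exp (2 ^ F.edgeSet.ncard) := by
          have h3 : (1 + 2 ^ F.edgeSet.ncard * ε ^ 4) ^ m ≤
              Real.exp (m * (2 ^ F.edgeSet.ncard * ε ^ 4)) := by
            apply pow_exp_le
            have : 0 ≤ 2 ^ F.edgeSet.ncard * ε ^ 4 := by positivity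
            linarith
          have h4 : (m : ℝ) * (2 ^ F.edgeSet.ncard * ε ^ 4) =
              2 ^ F.edgeSet.ncard * (1 / k) := by
            rw [← hme4]
            ring
          rw [h4] at h3
          refine h3.trans (Real.exp_le_exp.2 ?_)
          have h5 : (1 : ℝ) / k ≤ 1 := by
            rw [div_le_one hk0]
            linarith
          have h6 : (0 : ℝ) ≤ 2 ^ F.edgeSet.ncard := by positivity
          nlinarith
        have h5 : p ^ F.edgeSet.ncard * (n.descFactorial v : ℝ) = μF v F := mul_comm _ _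
        rw [h5]
        exact mul_le_mul_of_nonneg_left h2 (hμF v (by omega) F).le
      have hpos : 0 < CF F * μF v F := mul_pos (CF_pos F) (hμF v (by omega) F)
      have h6 : 1 / (CF F * μF v F) * Ex m ε p (XF v F) ≤
          1 / (CF F * μF v F) * (μF v F * Real.exp (2 ^ F.edgeSet.ncard)) :=
        mul_le_mul_of_nonneg_left h1 (by positivity)
      refine h6.trans (le_of_eq ?_)
      have hμ0 := (hμF v (by omega) F).ne'
      have hexp := (Real.exp_pos ((2 : ℝ) ^ F.edgeSet.ncard)).ne'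
      have hcard : (Fintype.card (SimpleGraph (Fin v)) : ℝ) ≠ 0 := by
        have : 0 < Fintype.card (SimpleGraph (Fin v)) := Fintype.card_pos
        exact_mod_cast this.ne'
      unfold CF
      rw [one_div_pow]
      field_simp
    refine (sum_le_sum h1).trans (le_of_eq ?_)
    rw [sum_const, nsmul_eq_mul, card_univ]
    have hcard : (Fintype.card (SimpleGraph (Fin v)) : ℝ) ≠ 0 := by
      have : 0 < Fintype.card (SimpleGraph (Fin v)) := Fintype.card_pos
      exact_mod_cast this.ne'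
    field_simp
  have hE : Ex m ε p Φ < 9 / 10 := by
    have e1 := Ex_add m ε p (fun S => K / μ2 ^ 2 * X2 S ^ 2) (fun S =>
      (-6 * K / μ2 * X2 S + (K / μ4 * X4 S + (K / μ3 * X3 S + (Y S + K * (4 + η))))))
    have e2 := Ex_add m ε p (fun S => -6 * K / μ2 * X2 S) (fun S =>
      (K / μ4 * X4 S + (K / μ3 * X3 S + (Y S + K * (4 + η)))))
    have e3 := Ex_add m ε p (fun S => K / μ4 * X4 S) (fun S => (K / μ3 * X3 S +
      (Y S + K * (4 + η))))
    have e4 := Ex_add m ε p (fun S => K / μ3 * X3 S) (fun S => (Y S + K * (4 + η)))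
    have e5 := Ex_add m ε p Y (fun _ => K * (4 + η))
    rw [Ex_const] at e5
    rw [Ex_mul] at e1 e2 e3 e4
    change Ex m ε p Φ = _ at e1
    have a2 : Ex m ε p X2 = μ2 := by
      rw [Ex_K2, hμ2]
      ring
    have a2' : Ex m ε p (fun S => X2 S ^ 2) ≤ μ2 ^ 2 + 2 * μ2 := by
      refine (Ex_K2_sq m ε p hp0.le).trans (le_of_eq ?_)
      rw [hμ2]
      ring
    have a3 : Ex m ε p X3 = μ3 * (1 - ε ^ 3) ^ m := by
      rw [Ex_C3, hμ3]
      ring
    have a4 : Ex m ε p X4 = μ4 * (1 + ε ^ 4) ^ m := by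
      rw [Ex_C4, hμ4]
      ring
    have b3 : K * (1 - ε ^ 3) ^ m ≤ 1 / 10 := by
      have h1 : (1 + -(ε ^ 3)) ^ m ≤ Real.exp (m * -(ε ^ 3)) := by
        apply pow_exp_le
        have : ε ^ 3 ≤ 1 := pow_le_one₀ hε0 hε1
        linarith
      have h2 : (m : ℝ) * -(ε ^ 3) = -k := by
        rw [← hme3]
        ring
      rw [h2, ← sub_eq_add_neg, Real.exp_neg] at h1
      have h3 : (k : ℝ) + 1 ≤ Real.exp k := Real.add_one_le_exp _
      have h4 : K * (1 - ε ^ 3) ^ m ≤ K * (Real.exp k)⁻¹ :=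
        mul_le_mul_of_nonneg_left h1 hK0.le
      refine h4.trans ?_
      rw [hK, ← div_eq_mul_inv, div_le_iff₀ (Real.exp_pos _)]
      linarith
    have b4 : (1 + ε ^ 4) ^ m ≤ 1 + 2 / k := by
      have h1 : (1 + ε ^ 4) ^ m ≤ Real.exp (m * ε ^ 4) := by
        apply pow_exp_le
        have : 0 ≤ ε ^ 4 := by positivity
        linarith
      rw [hme4] at h1
      refine h1.trans ?_
      have h3 : (1 : ℝ) / k ≤ 1 / 2 := one_div_le_one_div_of_le (by norm_num) hkR
      have h4 := Real.exp_bound_div_one_sub_of_interval (x := (1 : ℝ) / k) (by positivity)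
        (by linarith)
      refine h4.trans ?_
      rw [div_le_iff₀ (by linarith)]
      have h5 : (2 : ℝ) / k = 2 * (1 / k) := by ring
      rw [h5]
      nlinarith [show (0 : ℝ) ≤ 1 / k by positivity]
    rw [e1, e2, e3, e4, e5]
    change K / μ2 ^ 2 * Ex m ε p (fun S => X2 S ^ 2) + (-6 * K / μ2 * Ex m ε p X2 +
      (K / μ4 * Ex m ε p X4 + (K / μ3 * Ex m ε p X3 +
      (Ex m ε p Y + K * (4 + η))))) < _
    rw [a2, a3, a4]
    have c1 : K / μ2 ^ 2 * Ex m ε p (fun S => X2 S ^ 2) ≤ K + K * (2 / μ2) := by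
      refine (mul_le_mul_of_nonneg_left a2' (by positivity)).trans (le_of_eq ?_)
      field_simp
    have c2 : -6 * K / μ2 * μ2 = -6 * K := by field_simp
    have c4 : K / μ4 * (μ4 * (1 + ε ^ 4) ^ m) = K * (1 + ε ^ 4) ^ m := by field_simp
    have c3 : K / μ3 * (μ3 * (1 - ε ^ 3) ^ m) = K * (1 - ε ^ 3) ^ m := by field_simp
    rw [c2, c3, c4]
    have d1 : K * (2 / μ2) ≤ 1 / 20 := by
      refine (mul_le_mul_of_nonneg_left hv hK0.le).trans (le_of_eq ?_)
      rw [hK]
      field_simp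
      norm_num
    have d2 : K * (1 + ε ^ 4) ^ m ≤ K + 1 / 5 := by
      refine (mul_le_mul_of_nonneg_left b4 hK0.le).trans (le_of_eq ?_)
      rw [hK]
      field_simp
      ring
    have d3 : K * η ≤ 1 / 10 := by
      refine (mul_le_mul_of_nonneg_left hη hK0.le).trans (le_of_eq ?_)
      rw [hK]
      field_simp
    have d4 : K * (4 + η) = 4 * K + K * η := by ring
    rw [d4]
    linarith
  obtain ⟨S, _, hS⟩ := exists_lt m hε0 hε1 hp0.le hp Φ _ hE
  refine ⟨GS S, ?_⟩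
  obtain ⟨x, hx⟩ : ∃ x : ℝ, x = (emb K2 (GS S) : ℝ) / μ2 - 1 := ⟨_, rfl⟩
  obtain ⟨y, hy⟩ : ∃ y : ℝ, y = (emb C4 (GS S) : ℝ) / μ4 - 1 := ⟨_, rfl⟩
  have hx2 : (emb K2 (GS S) : ℝ) = (1 + x) * μ2 := by
    rw [hx]; field_simp; ring
  have hy2 : (emb C4 (GS S) : ℝ) = (1 + y) * μ4 := by
    rw [hy]; field_simp; ring
  have hlow : 0 ≤ y - 4 * x + η := by
    have hx1 : 0 ≤ 1 + x := by
      have : 1 + x = (emb K2 (GS S) : ℝ) / μ2 := by rw [hx]; ring
      rw [this]
      positivity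
    refine low_bound (by omega) (GS S) p hp0 x y η (by rw [hx2, hμ2]) ?_ hx1
    rw [← hμ4, hy2, hηdef]
    field_simp
  have hΦ : Φ S = K * x ^ 2 + K * (y - 4 * x + η) + (K * (X3 S / μ3) + Y S) := by
    change K / μ2 ^ 2 * X2 S ^ 2 + (-6 * K / μ2 * X2 S + (K / μ4 * X4 S + (K / μ3 * X3 S +
      (Y S + K * (4 + η))))) = _
    have e2 : X2 S = (1 + x) * μ2 := hx2
    have e4 : X4 S = (1 + y) * μ4 := hy2
    rw [e2, e4]
    field_simp
    ring
  rw [hΦ] at hS
  have n1 : 0 ≤ K * x ^ 2 := by positivity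
  have n2 : 0 ≤ K * (y - 4 * x + η) := mul_nonneg hK0.le hlow
  have n3 : 0 ≤ X3 S / μ3 := div_nonneg (Nat.cast_nonneg _) hμ3p.le
  have n3' : 0 ≤ K * (X3 S / μ3) := mul_nonneg hK0.le n3
  have n4F : ∀ v ∈ range (k + 1), ∀ F ∈ (univ : Finset (SimpleGraph (Fin v))),
      0 ≤ (1 / (CF F * μF v F)) * XF v F S := by
    intro v hv F _
    rw [mem_range] at hv
    have := mul_pos (CF_pos F) (hμF v (by omega) F)
    have h2 : 0 ≤ XF v F S := Nat.cast_nonneg _
    positivity
  have n4v : ∀ v ∈ range (k + 1), 0 ≤ ∑ F : SimpleGraph (Fin v),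
      (1 / (CF F * μF v F)) * XF v F S := fun v hv => sum_nonneg (n4F v hv)
  have n4 : 0 ≤ Y S := sum_nonneg n4v
  refine ⟨?_, ?_, ?_, ?_, ?_⟩
  · rw [← hμ2, ← hx]
    have h1 : K * x ^ 2 ≤ 9 / 10 := by linarith
    rw [hK] at h1
    rw [le_div_iff₀ hk0]
    nlinarith
  · rw [← hμ2, ← hx, ← hμ4, ← hy]
    linarith
  · rw [← hμ2, ← hx, ← hμ4, ← hy]
    have h1 : K * (y - 4 * x + η) ≤ 9 / 10 := by linarith
    have h2 : y - 4 * x + η ≤ 9 / k := by
      rw [hK] at h1
      rw [le_div_iff₀ hk0]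
      nlinarith
    have h3 : 0 ≤ η := by
      rw [hηdef]
      positivity
    linarith
  · rw [← hμ3]
    change X3 S / μ3 ≤ _
    have h1 : K * (X3 S / μ3) ≤ 9 / 10 := by linarith
    rw [hK] at h1
    rw [le_div_iff₀ hk0]
    nlinarith
  · intro v hvk F
    have hv' : v ∈ range (k + 1) := mem_range.2 (by omega)
    have h1 := (single_le_sum (n4F v hv') (mem_univ F)).trans (single_le_sum n4v hv')
    have h2 : (1 / (CF F * μF v F)) * XF v F S ≤ 1 := by
      have : (1 / (CF F * μF v F)) * XF v F S ≤ Y S := h1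
      linarith
    have hc := CF_pos F
    have hm' := hμF v hvk F
    change XF v F S / μF v F ≤ CF F
    rw [div_le_iff₀ hm']
    rw [one_div, inv_mul_le_iff₀ (mul_pos hc hm')] at h2
    linarith

end Pool.Agent.X51.SparseTri
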