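import Pool.Agent.X51.SparseTri.Meas

set_option autoImplicit false
set_option linter.unusedSimpArgs false

/-!
# Moments of the embedding numbers, and the lower bound for four-cycles
-/

namespace Pool.Agent.X51.SparseTri

open Finset

variable {n : ℕ}

/-! ### the expectation operator -/

noncomputable def Ex (m : ℕ) (ε p : ℝ) (g : Finset (Sym2 (Fin n)) → ℝ) : ℝ :=
  ∑ S ∈ (E0 n).powerset, mu m ε p S * g S

theorem Ex_add (m : ℕ) (ε p : ℝ) (g h : Finset (Sym2 (Fin n)) → ℝ) :
    Ex m ε p (fun S => g S + h S) = Ex m ε p g + Ex m ε p h := by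
  unfold Ex
  rw [← sum_add_distrib]
  exact sum_congr rfl fun S _ => by ring

theorem Ex_mul (m : ℕ) (ε p c : ℝ) (g : Finset (Sym2 (Fin n)) → ℝ) :
    Ex m ε p (fun S => c * g S) = c * Ex m ε p g := by
  unfold Ex
  rw [mul_sum]
  exact sum_congr rfl fun S _ => by ring

theorem Ex_const (m : ℕ) (ε p c : ℝ) : Ex m ε p (fun _ : Finset (Sym2 (Fin n)) => c) = c := by
  unfold Ex
  rw [← sum_mul, mu_total, one_mul]

theorem Ex_sum (m : ℕ) (ε p : ℝ) {ι : Type} (s : Finset ι)
    (g : ι → Finset (Sym2 (Fin n)) → ℝ) :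
    Ex m ε p (fun S => ∑ i ∈ s, g i S) = ∑ i ∈ s, Ex m ε p (g i) := by
  unfold Ex
  rw [sum_comm]
  exact sum_congr rfl fun S _ => by rw [mul_sum]

theorem exists_lt (m : ℕ) {ε p : ℝ} (h0 : 0 ≤ ε) (h1 : ε ≤ 1) (hp : 0 ≤ p)
    (hp2 : p * 2 ^ m ≤ 1) (g : Finset (Sym2 (Fin n)) → ℝ) (c : ℝ) (h : Ex m ε p g < c) :
    ∃ S ∈ (E0 n).powerset, g S < c := by
  by_contra hcon
  push Not at hcon
  have h2 : Ex m ε p (fun _ : Finset (Sym2 (Fin n)) => c) ≤ Ex m ε p g := by
    unfold Ex
    exact sum_le_sum fun S hS =>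
      mul_le_mul_of_nonneg_left (hcon S hS) (mu_nonneg m h0 h1 hp hp2 S)
  rw [Ex_const] at h2
  linarith

/-! ### edges -/

abbrev K2 : SimpleGraph (Fin 2) := ⊤

theorem PF_K2 (f : Fin 2 ↪ Fin n) : PF K2 f = {s(f 0, f 1)} := by
  have h : (K2).edgeFinset = {s(0, 1)} := by decide
  unfold PF
  rw [h, image_singleton]
  rfl

theorem card_K2 : (K2).edgeFinset.card = 1 := by decide

theorem f01 (f : Fin 2 ↪ Fin n) : ¬ (s(f 0, f 1) : Sym2 (Fin n)).IsDiag := by
  simp

theorem card_embeddings (r : ℕ) :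
    ((univ : Finset (Fin r ↪ Fin n)).card : ℝ) = (n.descFactorial r : ℝ) := by
  rw [card_univ, Fintype.card_embedding_eq, Fintype.card_fin, Fintype.card_fin]

theorem Ex_K2 (m : ℕ) (ε p : ℝ) :
    Ex m ε p (fun S : Finset (Sym2 (Fin n)) => (emb K2 (GS S) : ℝ)) = p * n.descFactorial 2 := by
  unfold Ex
  rw [mu_emb, card_K2, pow_one]
  congr 1
  have : ∀ f ∈ (univ : Finset (Fin 2 ↪ Fin n)), psi ε (PF K2 f) ^ m = 1 := by
    intro f _
    rw [PF_K2, psi_single ε (f01 f), one_pow]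
  rw [sum_congr rfl this, sum_const, nsmul_eq_mul, mul_one, card_embeddings]

theorem Ex_K2_sq (m : ℕ) (ε p : ℝ) (hp : 0 ≤ p) :
    Ex m ε p (fun S : Finset (Sym2 (Fin n)) => (emb K2 (GS S) : ℝ) ^ 2) ≤
      p ^ 2 * (n.descFactorial 2 : ℝ) ^ 2 + 2 * p * n.descFactorial 2 := by
  classical
  have h1 : ∀ S : Finset (Sym2 (Fin n)), (emb K2 (GS S) : ℝ) ^ 2 =
      ∑ f : Fin 2 ↪ Fin n, ∑ g : Fin 2 ↪ Fin n, if PF K2 f ∪ PF K2 g ⊆ S then 1 else 0 := by
    intro S
    rw [emb_eq, sq, sum_mul_sum]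
    apply sum_congr rfl
    intro f _
    apply sum_congr rfl
    intro g _
    by_cases h1 : PF K2 f ⊆ S <;> by_cases h2 : PF K2 g ⊆ S <;>
      simp [h1, h2, union_subset_iff]
  simp_rw [h1]
  rw [Ex_sum]
  have h2 : ∀ f ∈ (univ : Finset (Fin 2 ↪ Fin n)),
      Ex m ε p (fun S : Finset (Sym2 (Fin n)) =>
        ∑ g : Fin 2 ↪ Fin n, if PF K2 f ∪ PF K2 g ⊆ S then 1 else 0) ≤
      p ^ 2 * (n.descFactorial 2 : ℝ) + 2 * p := by
    intro f _
    rw [Ex_sum]
    have h3 : ∀ g ∈ (univ : Finset (Fin 2 ↪ Fin n)),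
        Ex m ε p (fun S : Finset (Sym2 (Fin n)) => if PF K2 f ∪ PF K2 g ⊆ S then 1 else 0) ≤
        p ^ 2 + if PF K2 f = PF K2 g then p else 0 := by
      intro g _
      unfold Ex
      rw [mu_sum m ε p _ (union_subset (PF_sub K2 f) (PF_sub K2 g))]
      by_cases h : PF K2 f = PF K2 g
      · rw [if_pos h, ← h, union_self, PF_card, card_K2, pow_one, PF_K2,
          psi_single ε (f01 f), one_pow, mul_one]
        nlinarith
      · rw [if_neg h, add_zero]
        have hne : (s(f 0, f 1) : Sym2 (Fin n)) ≠ s(g 0, g 1) := by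
          intro h'
          apply h
          rw [PF_K2, PF_K2, h']
        have hu : PF K2 f ∪ PF K2 g = {s(f 0, f 1), s(g 0, g 1)} := by
          rw [PF_K2, PF_K2]
          rfl
        rw [hu, card_pair hne, psi_pair ε (f01 f) (f01 g) hne, one_pow, mul_one]
    refine (sum_le_sum h3).trans ?_
    rw [sum_add_distrib, sum_const, nsmul_eq_mul, card_embeddings, ← sum_filter, sum_const,
      nsmul_eq_mul]
    have h4 : ((univ.filter (fun g : Fin 2 ↪ Fin n => PF K2 f = PF K2 g)).card : ℝ) ≤ 2 := by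
      have h5 : (univ.filter (fun g : Fin 2 ↪ Fin n => PF K2 f = PF K2 g)).card ≤
          ({(f 0, f 1), (f 1, f 0)} : Finset (Fin n × Fin n)).card := by
        apply card_le_card_of_injOn (fun g => (g 0, g 1))
        · intro g hg
          have hg' : PF K2 f = PF K2 g := by simpa using hg
          rw [PF_K2, PF_K2, singleton_inj, Sym2.eq_iff] at hg'
          rcases hg' with ⟨ha, hb⟩ | ⟨ha, hb⟩
          · simp [ha, hb]
          · simp [ha, hb]
        · intro g _ g' _ hgg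
          simp only [Prod.mk.injEq] at hgg
          ext i
          fin_cases i
          · exact congrArg Fin.val hgg.1
          · exact congrArg Fin.val hgg.2
      have h6 : ({(f 0, f 1), (f 1, f 0)} : Finset (Fin n × Fin n)).card ≤ 2 := card_le_two
      exact_mod_cast h5.trans h6
    nlinarith
  refine (sum_le_sum h2).trans ?_
  rw [sum_const, nsmul_eq_mul, card_embeddings]
  nlinarith

/-! ### triangles -/

abbrev C3 : SimpleGraph (Fin 3) := SimpleGraph.cycleGraph 3

abbrev C4 : SimpleGraph (Fin 4) := SimpleGraph.cycleGraph 4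

instance : DecidableRel C3.Adj := fun a b => by
  unfold C3 SimpleGraph.cycleGraph; infer_instance

instance : DecidableRel C4.Adj := fun a b => by
  unfold C4 SimpleGraph.cycleGraph; infer_instance

theorem edges_C3 : (C3).edgeFinset = {s(0, 1), s(1, 2), s(0, 2)} := by decide

theorem edges_C4 : (C4).edgeFinset = {s(0, 1), s(1, 2), s(2, 3), s(0, 3)} := by decide

theorem Ex_C3 (m : ℕ) (ε p : ℝ) :
    Ex m ε p (fun S : Finset (Sym2 (Fin n)) => (emb C3 (GS S) : ℝ)) =
      p ^ 3 * n.descFactorial 3 * (1 - ε ^ 3) ^ m := by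
  unfold Ex
  rw [mu_emb]
  have hc : (C3).edgeFinset.card = 3 := by rw [edges_C3]; decide
  have : ∀ f ∈ (univ : Finset (Fin 3 ↪ Fin n)), psi ε (PF C3 f) ^ m = (1 - ε ^ 3) ^ m := by
    intro f _
    have h : PF C3 f = {s(f 0, f 1), s(f 1, f 2), s(f 0, f 2)} := by
      unfold PF
      rw [edges_C3]
      simp
    rw [h, psi_triangle ε (f.injective.ne (by decide)) (f.injective.ne (by decide))
      (f.injective.ne (by decide))]
  rw [sum_congr rfl this, sum_const, nsmul_eq_mul, card_embeddings, hc]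
  ring

theorem Ex_C4 (m : ℕ) (ε p : ℝ) :
    Ex m ε p (fun S : Finset (Sym2 (Fin n)) => (emb C4 (GS S) : ℝ)) =
      p ^ 4 * n.descFactorial 4 * (1 + ε ^ 4) ^ m := by
  unfold Ex
  rw [mu_emb]
  have hc : (C4).edgeFinset.card = 4 := by rw [edges_C4]; decide
  have : ∀ f ∈ (univ : Finset (Fin 4 ↪ Fin n)), psi ε (PF C4 f) ^ m = (1 + ε ^ 4) ^ m := by
    intro f _
    have h : PF C4 f = {s(f 0, f 1), s(f 1, f 2), s(f 2, f 3), s(f 0, f 3)} := by
      unfold PF
      rw [edges_C4]
      simp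
    rw [h, psi_four ε (f.injective.ne (by decide)) (f.injective.ne (by decide))
      (f.injective.ne (by decide)) (f.injective.ne (by decide)) (f.injective.ne (by decide))
      (f.injective.ne (by decide))]
  rw [sum_congr rfl this, sum_const, nsmul_eq_mul, card_embeddings, hc]
  ring

theorem card_Kst (s t : ℕ) [DecidableRel (completeBipartiteGraph (Fin s) (Fin t)).Adj] :
    (completeBipartiteGraph (Fin s) (Fin t)).edgeFinset.card = s * t := by
  have h : (completeBipartiteGraph (Fin s) (Fin t)).edgeFinset =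
      (univ : Finset (Fin s × Fin t)).image (fun x => s(Sum.inl x.1, Sum.inr x.2)) := by
    ext e
    induction e using Sym2.ind with
    | _ a b =>
      rw [SimpleGraph.mem_edgeFinset, SimpleGraph.mem_edgeSet, mem_image]
      rcases a with a | a <;> rcases b with b | b <;> simp
  rw [h, card_image_of_injective]
  · simp
  · rintro ⟨a, b⟩ ⟨c, d⟩ h
    simpa using h

theorem Ex_Kst (m : ℕ) (ε p : ℝ) (h0 : 0 ≤ ε) (h1 : ε ≤ 1) (hp : 0 ≤ p) (s t : ℕ) :
    Ex m ε p (fun S : Finset (Sym2 (Fin n)) =>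
      (emb (completeBipartiteGraph (Fin s) (Fin t)) (GS S) : ℝ)) ≤
      p ^ (s * t) * n.descFactorial (s + t) * (1 + 2 ^ (s * t) * ε ^ 3) ^ m := by
  classical
  unfold Ex
  rw [mu_emb]
  have hc := card_Kst s t
  rw [hc, mul_assoc]
  apply mul_le_mul_of_nonneg_left _ (pow_nonneg hp _)
  have : ∀ f ∈ (univ : Finset (Fin s ⊕ Fin t ↪ Fin n)),
      psi ε (PF (completeBipartiteGraph (Fin s) (Fin t)) f) ^ m ≤
        (1 + 2 ^ (s * t) * ε ^ 3) ^ m := by
    intro f _
    apply pow_le_pow_left₀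
    · unfold psi EE
      apply div_nonneg _ (by positivity)
      apply sum_nonneg
      intro t' _
      apply prod_nonneg
      intro e _
      have := ev_abs t' e
      have h2 : ev t' e ≤ 1 := this ▸ le_abs_self _
      nlinarith
    · have := psi_le ε h0 h1 (PF (completeBipartiteGraph (Fin s) (Fin t)) f)
        (fun e he => mem_E0.1 (PF_sub _ f he))
      rwa [PF_card, hc] at this
  refine (sum_le_sum this).trans ?_
  rw [sum_const, nsmul_eq_mul, card_univ, Fintype.card_embedding_eq, Fintype.card_sum,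
    Fintype.card_fin, Fintype.card_fin, Fintype.card_fin]

/-! ### the lower bound for four-cycles -/

theorem emb_C4_ge (G : SimpleGraph (Fin n)) :
    (emb K2 G : ℝ) ^ 4 ≤ (n : ℝ) ^ 4 * (emb C4 G + 2 * (n : ℝ) ^ 3) := by
  classical
  let a : Fin n → Fin n → ℝ := fun x y => if G.Adj x y then 1 else 0
  have ha0 : ∀ x y, 0 ≤ a x y := fun x y => by
    change 0 ≤ if G.Adj x y then (1 : ℝ) else 0
    split_ifs <;> norm_num
  have hsymm : ∀ x y, a x y = a y x := fun x y => by
    change (if G.Adj x y then (1 : ℝ) else 0) = if G.Adj y x then (1 : ℝ) else 0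
    simp only [G.adj_comm]
  -- number of edges
  have hK2 : (emb K2 G : ℝ) = ∑ x, ∑ y, a x y := by
    have h1 : emb K2 G = (univ.filter (fun q : Fin n × Fin n => G.Adj q.1 q.2)).card := by
      unfold emb
      rw [← Set.ncard_coe_finset]
      apply Set.ncard_congr (fun f _ => (f 0, f 1))
      · rintro f ⟨_, hf⟩
        simpa using hf 0 1 (by simp)
      · intro f g _ _ hfg
        simp only [Prod.mk.injEq] at hfg
        ext i
        fin_cases i
        · exact congrArg Fin.val hfg.1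
        · exact congrArg Fin.val hfg.2
      · rintro ⟨x, y⟩ hxy
        have hxy' : G.Adj x y := by simpa using hxy
        refine ⟨![x, y], ⟨?_, ?_⟩, rfl⟩
        · intro i j hij
          fin_cases i <;> fin_cases j <;> simp_all
        · intro i j hij
          fin_cases i <;> fin_cases j <;> simp_all
          exact hxy'.symm
    rw [h1, ← sum_boole, Fintype.sum_prod_type]
  -- homomorphisms of the four-cycle
  let H : Finset ((Fin n × Fin n) × (Fin n × Fin n)) :=
    univ.filter (fun q => (G.Adj q.1.1 q.2.1 ∧ G.Adj q.1.2 q.2.1) ∧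
      (G.Adj q.1.1 q.2.2 ∧ G.Adj q.1.2 q.2.2))
  have hH : (H.card : ℝ) = ∑ x, ∑ y, (∑ z, a x z * a y z) ^ 2 := by
    change (((univ.filter _).card : ℕ) : ℝ) = _
    rw [← sum_boole, Fintype.sum_prod_type, Fintype.sum_prod_type]
    apply sum_congr rfl
    intro x _
    apply sum_congr rfl
    intro y _
    rw [sq, sum_mul_sum, Fintype.sum_prod_type]
    apply sum_congr rfl
    intro z _
    apply sum_congr rfl
    intro w _
    change _ = ((if G.Adj x z then (1 : ℝ) else 0) * (if G.Adj y z then (1 : ℝ) else 0)) *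
      ((if G.Adj x w then (1 : ℝ) else 0) * (if G.Adj y w then (1 : ℝ) else 0))
    by_cases h1 : G.Adj x z <;> by_cases h2 : G.Adj y z <;> by_cases h3 : G.Adj x w <;>
      by_cases h4 : G.Adj y w <;> simp [h1, h2, h3, h4]
  -- Cauchy-Schwarz
  have hcs1 : (∑ x, ∑ y, ∑ z, a x z * a y z) ^ 2 ≤
      (n : ℝ) ^ 2 * ∑ x, ∑ y, (∑ z, a x z * a y z) ^ 2 := by
    have h1 := sq_sum_le_card_mul_sum_sq (s := (univ : Finset (Fin n × Fin n)))
      (f := fun q => ∑ z, a q.1 z * a q.2 z)
    rw [Fintype.sum_prod_type, Fintype.sum_prod_type, card_univ, Fintype.card_prod,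
      Fintype.card_fin] at h1
    refine h1.trans (le_of_eq ?_)
    push_cast
    ring
  have hcs2 : (∑ x, ∑ y, a x y) ^ 2 ≤ (n : ℝ) * ∑ x, ∑ y, ∑ z, a x z * a y z := by
    have h1 := sq_sum_le_card_mul_sum_sq (s := (univ : Finset (Fin n)))
      (f := fun z => ∑ x, a x z)
    rw [card_univ, Fintype.card_fin, sum_comm] at h1
    refine h1.trans (le_of_eq ?_)
    congr 1
    have h2 : ∀ z ∈ (univ : Finset (Fin n)), (∑ x, a x z) ^ 2 = ∑ x, ∑ y, a x z * a y z := by
      intro z _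
      rw [sq, sum_mul_sum]
    rw [sum_congr rfl h2, sum_comm]
    apply sum_congr rfl
    intro x _
    rw [sum_comm]
  -- degenerate homomorphisms
  let Q : Finset ((Fin n × Fin n) × (Fin n × Fin n)) :=
    H.filter (fun q => q.1.1 ≠ q.1.2 ∧ q.2.1 ≠ q.2.2)
  have hQ : Q.card ≤ emb C4 G := by
    unfold emb
    rw [← Set.ncard_coe_finset]
    apply Set.ncard_le_ncard_of_injOn (fun q => ![q.1.1, q.2.1, q.1.2, q.2.2])
    · rintro ⟨⟨x, y⟩, ⟨z, w⟩⟩ hq
      simp only [Q, H, coe_filter, mem_filter, mem_univ, true_and, Set.mem_ofPred_eq] at hq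
      obtain ⟨⟨⟨h1, h2⟩, h3, h4⟩, h5, h6⟩ := hq
      refine ⟨?_, ?_⟩
      · intro i j hij
        fin_cases i <;> fin_cases j <;> first | rfl | (exfalso; simp at hij)
        all_goals first
          | exact h1.ne hij | exact h1.ne hij.symm | exact h2.ne hij | exact h2.ne hij.symm
          | exact h3.ne hij | exact h3.ne hij.symm | exact h4.ne hij | exact h4.ne hij.symm
          | exact h5 hij | exact h5 hij.symm | exact h6 hij | exact h6 hij.symm
      · have key : ∀ i j : Fin 4, C4.Adj i j →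
            (i = 0 ∧ j = 1) ∨ (i = 1 ∧ j = 0) ∨ (i = 1 ∧ j = 2) ∨ (i = 2 ∧ j = 1) ∨
            (i = 2 ∧ j = 3) ∨ (i = 3 ∧ j = 2) ∨ (i = 3 ∧ j = 0) ∨ (i = 0 ∧ j = 3) := by
          decide
        intro i j hij
        rcases key i j hij with ⟨rfl, rfl⟩ | ⟨rfl, rfl⟩ | ⟨rfl, rfl⟩ | ⟨rfl, rfl⟩ |
          ⟨rfl, rfl⟩ | ⟨rfl, rfl⟩ | ⟨rfl, rfl⟩ | ⟨rfl, rfl⟩
        · exact h1
        · exact h1.symm
        · exact h2.symm
        · exact h2
        · exact h4
        · exact h4.symm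
        · exact h3.symm
        · exact h3
    · rintro ⟨⟨x, y⟩, ⟨z, w⟩⟩ _ ⟨⟨x', y'⟩, ⟨z', w'⟩⟩ _ h
      have h0 := congrFun h 0
      have h1 := congrFun h 1
      have h2 := congrFun h 2
      have h3 := congrFun h 3
      simp only [Matrix.cons_val] at h0 h1 h2 h3
      rw [h0, h1, h2, h3]
  have hHQ : H.card ≤ Q.card + 2 * n ^ 3 := by
    have h1 : H ⊆ Q ∪ (((univ : Finset (Fin n × Fin n × Fin n)).image
        (fun q => ((q.1, q.1), (q.2.1, q.2.2)))) ∪
        ((univ : Finset (Fin n × Fin n × Fin n)).image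
        (fun q => ((q.2.1, q.2.2), (q.1, q.1))))) := by
      rintro ⟨⟨x, y⟩, ⟨z, w⟩⟩ hq
      by_cases h5 : x = y
      · subst h5
        rw [mem_union, mem_union]
        right; left
        exact mem_image.2 ⟨(x, z, w), mem_univ _, rfl⟩
      · by_cases h6 : z = w
        · subst h6
          rw [mem_union, mem_union]
          right; right
          exact mem_image.2 ⟨(z, x, y), mem_univ _, rfl⟩
        · rw [mem_union]
          left
          exact mem_filter.2 ⟨hq, h5, h6⟩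
    have h2 := card_le_card h1
    have h3 : (univ : Finset (Fin n × Fin n × Fin n)).card = n ^ 3 := by
      rw [card_univ, Fintype.card_prod, Fintype.card_prod, Fintype.card_fin]
      ring
    have h4 := (card_union_le Q (((univ : Finset (Fin n × Fin n × Fin n)).image
        (fun q => ((q.1, q.1), (q.2.1, q.2.2)))) ∪
        ((univ : Finset (Fin n × Fin n × Fin n)).image
        (fun q => ((q.2.1, q.2.2), (q.1, q.1))))))
    have h5 := (card_union_le ((univ : Finset (Fin n × Fin n × Fin n)).image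
        (fun q => ((q.1, q.1), (q.2.1, q.2.2))))
        ((univ : Finset (Fin n × Fin n × Fin n)).image
        (fun q => ((q.2.1, q.2.2), (q.1, q.1)))))
    have h6 := card_image_le (s := (univ : Finset (Fin n × Fin n × Fin n)))
      (f := fun q => ((q.1, q.1), (q.2.1, q.2.2)))
    have h7 := card_image_le (s := (univ : Finset (Fin n × Fin n × Fin n)))
      (f := fun q => ((q.2.1, q.2.2), (q.1, q.1)))
    omega
  have hfin : (H.card : ℝ) ≤ emb C4 G + 2 * (n : ℝ) ^ 3 := by
    have : H.card ≤ emb C4 G + 2 * n ^ 3 := by omega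
    exact_mod_cast this
  rw [hK2]
  have hn : (0 : ℝ) ≤ n := Nat.cast_nonneg n
  have e0 : 0 ≤ ∑ x, ∑ y, a x y := sum_nonneg fun x _ => sum_nonneg fun y _ => ha0 x y
  calc (∑ x, ∑ y, a x y) ^ 4 = ((∑ x, ∑ y, a x y) ^ 2) ^ 2 := by ring
    _ ≤ ((n : ℝ) * ∑ x, ∑ y, ∑ z, a x z * a y z) ^ 2 :=
        pow_le_pow_left₀ (sq_nonneg _) hcs2 2
    _ = (n : ℝ) ^ 2 * (∑ x, ∑ y, ∑ z, a x z * a y z) ^ 2 := by ring
    _ ≤ (n : ℝ) ^ 2 * ((n : ℝ) ^ 2 * ∑ x, ∑ y, (∑ z, a x z * a y z) ^ 2) :=
        mul_le_mul_of_nonneg_left hcs1 (by positivity)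
    _ = (n : ℝ) ^ 4 * H.card := by rw [hH]; ring
    _ ≤ (n : ℝ) ^ 4 * (emb C4 G + 2 * (n : ℝ) ^ 3) :=
        mul_le_mul_of_nonneg_left hfin (by positivity)

end Pool.Agent.X51.SparseTri
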