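import Pool.Agent.X51.SparseTri.Psi

set_option autoImplicit false

/-!
# The random graph
-/

namespace Pool.Agent.X51.SparseTri

open Finset

variable {n : ℕ}

/-- all possible edges -/
def E0 (n : ℕ) : Finset (Sym2 (Fin n)) := univ.filter (fun e => ¬ e.IsDiag)

theorem mem_E0 {e : Sym2 (Fin n)} : e ∈ E0 n ↔ ¬ e.IsDiag := by simp [E0]

/-- the weight of an edge set if edges are present independently -/
noncomputable def wt (q : Sym2 (Fin n) → ℝ) (S : Finset (Sym2 (Fin n))) : ℝ :=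
  (∏ e ∈ S, q e) * ∏ e ∈ E0 n \ S, (1 - q e)

theorem wt_sum (q : Sym2 (Fin n) → ℝ) (A : Finset (Sym2 (Fin n))) (hA : A ⊆ E0 n) :
    ∑ S ∈ (E0 n).powerset, wt q S * (if A ⊆ S then 1 else 0) = ∏ e ∈ A, q e := by
  classical
  have h1 : ∀ S ∈ (E0 n).powerset, wt q S * (if A ⊆ S then 1 else 0) =
      (∏ e ∈ S, q e) * ∏ e ∈ E0 n \ S, ((1 - q e) * (if e ∈ A then 0 else 1)) := by
    intro S _
    unfold wt
    rw [prod_mul_distrib, ← mul_assoc]
    congr 1
    by_cases h : A ⊆ S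
    · rw [if_pos h]
      symm
      apply prod_eq_one
      intro e he
      rw [mem_sdiff] at he
      rw [if_neg (fun h' => he.2 (h h'))]
    · rw [if_neg h]
      symm
      obtain ⟨e, heA, heS⟩ := not_subset.1 h
      exact prod_eq_zero (mem_sdiff.2 ⟨hA heA, heS⟩) (if_pos heA)
  rw [sum_congr rfl h1, ← prod_add]
  have h2 : ∀ e ∈ E0 n, q e + (1 - q e) * (if e ∈ A then 0 else 1) = if e ∈ A then q e else 1 := by
    intro e _
    split_ifs <;> ring
  rw [prod_congr rfl h2, ← prod_filter, filter_mem_eq_inter, inter_eq_right.2 hA]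

/-- the expected edge density given the types -/
noncomputable def WW {m : ℕ} (ε : ℝ) (τ : Fin m → Fin n → Bool) (e : Sym2 (Fin n)) : ℝ :=
  ∏ l, (1 - ε * ev (τ l) e)

/-- the mixture weight -/
noncomputable def mu (m : ℕ) (ε p : ℝ) (S : Finset (Sym2 (Fin n))) : ℝ :=
  (∑ τ : Fin m → Fin n → Bool, wt (fun e => p * WW ε τ e) S) / (2 ^ n) ^ m

theorem WW_nonneg {m : ℕ} {ε : ℝ} (h0 : 0 ≤ ε) (h1 : ε ≤ 1) (τ : Fin m → Fin n → Bool)
    (e : Sym2 (Fin n)) : 0 ≤ WW ε τ e := by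
  apply prod_nonneg
  intro l _
  have := ev_abs (τ l) e
  have h2 : ev (τ l) e ≤ 1 := this ▸ le_abs_self _
  nlinarith

theorem WW_le {m : ℕ} {ε : ℝ} (h0 : 0 ≤ ε) (h1 : ε ≤ 1) (τ : Fin m → Fin n → Bool)
    (e : Sym2 (Fin n)) : WW ε τ e ≤ 2 ^ m := by
  unfold WW
  calc ∏ l, (1 - ε * ev (τ l) e) ≤ ∏ _l : Fin m, (2 : ℝ) := by
        apply prod_le_prod
        · intro l _
          have := ev_abs (τ l) e
          have h2 : ev (τ l) e ≤ 1 := this ▸ le_abs_self _
          nlinarith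
        · intro l _
          have := ev_abs (τ l) e
          have h2 : - ev (τ l) e ≤ 1 := this ▸ neg_le_abs _
          nlinarith
    _ = 2 ^ m := by simp

theorem mu_nonneg (m : ℕ) {ε p : ℝ} (h0 : 0 ≤ ε) (h1 : ε ≤ 1) (hp : 0 ≤ p)
    (hp2 : p * 2 ^ m ≤ 1) (S : Finset (Sym2 (Fin n))) : 0 ≤ mu m ε p S := by
  unfold mu
  apply div_nonneg _ (by positivity)
  apply sum_nonneg
  intro τ _
  unfold wt
  apply mul_nonneg
  · exact prod_nonneg fun e _ => mul_nonneg hp (WW_nonneg h0 h1 τ e)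
  · apply prod_nonneg
    intro e _
    have h3 : p * WW ε τ e ≤ p * 2 ^ m := mul_le_mul_of_nonneg_left (WW_le h0 h1 τ e) hp
    linarith

theorem mu_sum (m : ℕ) (ε p : ℝ) (A : Finset (Sym2 (Fin n))) (hA : A ⊆ E0 n) :
    ∑ S ∈ (E0 n).powerset, mu m ε p S * (if A ⊆ S then 1 else 0) =
      p ^ A.card * psi ε A ^ m := by
  classical
  unfold mu
  have h1 : ∀ S ∈ (E0 n).powerset,
      (∑ τ : Fin m → Fin n → Bool, wt (fun e => p * WW ε τ e) S) / (2 ^ n) ^ m *
        (if A ⊆ S then 1 else 0) =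
      (∑ τ : Fin m → Fin n → Bool, wt (fun e => p * WW ε τ e) S * (if A ⊆ S then 1 else 0)) /
        (2 ^ n) ^ m := by
    intro S _
    rw [← sum_mul]
    ring
  rw [sum_congr rfl h1, ← sum_div, sum_comm]
  have h2 : ∀ τ ∈ (univ : Finset (Fin m → Fin n → Bool)),
      ∑ S ∈ (E0 n).powerset, wt (fun e => p * WW ε τ e) S * (if A ⊆ S then 1 else 0) =
      p ^ A.card * ∏ l, ∏ e ∈ A, (1 - ε * ev (τ l) e) := by
    intro τ _
    rw [wt_sum _ A hA, prod_mul_distrib, prod_const]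
    congr 1
    unfold WW
    rw [prod_comm]
  rw [sum_congr rfl h2, ← mul_sum]
  have h3 : ∑ τ : Fin m → Fin n → Bool, ∏ l, ∏ e ∈ A, (1 - ε * ev (τ l) e) =
      (∑ t : Fin n → Bool, ∏ e ∈ A, (1 - ε * ev t e)) ^ m := by
    rw [Fintype.sum_pow]
  rw [h3]
  unfold psi EE
  rw [div_pow, mul_div_assoc]

theorem mu_total (m : ℕ) (ε p : ℝ) : ∑ S ∈ (E0 n).powerset, mu m ε p S = 1 := by
  have h := mu_sum (n := n) m ε p ∅ (empty_subset _)
  simpa [psi_empty] using h

/-! ### counting embeddings -/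

/-- the graph with edge set `S` -/
def GS (S : Finset (Sym2 (Fin n))) : SimpleGraph (Fin n) := SimpleGraph.fromEdgeSet (S : Set _)

/-- the image of the edges of `F` -/
def PF {V : Type} [Fintype V] [DecidableEq V] (F : SimpleGraph V) [DecidableRel F.Adj]
    (f : V ↪ Fin n) : Finset (Sym2 (Fin n)) := F.edgeFinset.image (Sym2.map f)

theorem PF_card {V : Type} [Fintype V] [DecidableEq V] (F : SimpleGraph V) [DecidableRel F.Adj]
    (f : V ↪ Fin n) : (PF F f).card = F.edgeFinset.card :=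
  card_image_of_injective _ (Sym2.map.injective f.injective)

theorem PF_sub {V : Type} [Fintype V] [DecidableEq V] (F : SimpleGraph V) [DecidableRel F.Adj]
    (f : V ↪ Fin n) : PF F f ⊆ E0 n := by
  intro e he
  obtain ⟨d, hd, rfl⟩ := mem_image.1 he
  rw [mem_E0, Sym2.isDiag_map f.injective]
  exact F.not_isDiag_of_mem_edgeSet (SimpleGraph.mem_edgeFinset.1 hd)

theorem PF_sub_iff {V : Type} [Fintype V] [DecidableEq V] (F : SimpleGraph V)
    [DecidableRel F.Adj] (f : V ↪ Fin n) (S : Finset (Sym2 (Fin n))) :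
    PF F f ⊆ S ↔ ∀ i j, F.Adj i j → (GS S).Adj (f i) (f j) := by
  constructor
  · intro h i j hij
    rw [GS, SimpleGraph.fromEdgeSet_adj]
    refine ⟨?_, fun h' => hij.ne (f.injective h')⟩
    apply h
    exact mem_image.2 ⟨s(i, j), SimpleGraph.mem_edgeFinset.2 hij, rfl⟩
  · intro h e he
    obtain ⟨d, hd, rfl⟩ := mem_image.1 he
    induction d using Sym2.ind with
    | _ i j =>
      have := h i j (SimpleGraph.mem_edgeFinset.1 hd)
      rw [GS, SimpleGraph.fromEdgeSet_adj] at this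
      exact this.1

/-- number of embeddings -/
noncomputable def emb {V : Type} (F : SimpleGraph V) (G : SimpleGraph (Fin n)) : ℕ :=
  Set.ncard {f : V → Fin n | Function.Injective f ∧ ∀ i j, F.Adj i j → G.Adj (f i) (f j)}

theorem emb_eq {V : Type} [Fintype V] [DecidableEq V] (F : SimpleGraph V) [DecidableRel F.Adj]
    (S : Finset (Sym2 (Fin n))) :
    (emb F (GS S) : ℝ) = ∑ f : V ↪ Fin n, if PF F f ⊆ S then 1 else 0 := by
  classical
  have h1 : {f : V → Fin n | Function.Injective f ∧ ∀ i j, F.Adj i j → (GS S).Adj (f i) (f j)} =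
      (fun f : V ↪ Fin n => (f : V → Fin n)) '' {f : V ↪ Fin n | PF F f ⊆ S} := by
    ext f
    simp only [Set.mem_ofPred_eq, Set.mem_image]
    constructor
    · rintro ⟨hf, h⟩
      exact ⟨⟨f, hf⟩, (PF_sub_iff F ⟨f, hf⟩ S).2 h, rfl⟩
    · rintro ⟨g, hg, rfl⟩
      exact ⟨g.injective, (PF_sub_iff F g S).1 hg⟩
  unfold emb
  rw [h1, Set.InjOn.ncard_image (fun f _ g _ h => DFunLike.coe_injective h)]
  rw [sum_boole, Set.ncard_eq_toFinset_card']
  congr 2
  ext f
  simp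

/-- the expected number of embeddings -/
theorem mu_emb (m : ℕ) (ε p : ℝ) {V : Type} [Fintype V] [DecidableEq V] (F : SimpleGraph V)
    [DecidableRel F.Adj] :
    ∑ S ∈ (E0 n).powerset, mu m ε p S * (emb F (GS S) : ℝ) =
      p ^ F.edgeFinset.card * ∑ f : V ↪ Fin n, psi ε (PF F f) ^ m := by
  simp_rw [emb_eq, mul_sum]
  rw [sum_comm]
  apply sum_congr rfl
  intro f _
  rw [mu_sum m ε p _ (PF_sub F f), PF_card]

end Pool.Agent.X51.SparseTri
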