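import Mathlib

set_option autoImplicit false
set_option linter.unusedSimpArgs false

/-!
# A probability measure on graphs with prescribed edge correlations

Vertices get independent random sign vectors of length `m`, and an edge `ab` is present with
probability `p ∏ (1 - ε x_l y_l)`.
-/

namespace Pool.Agent.X51.SparseTri

open Finset

variable {n : ℕ}

/-- the sign of a Boolean -/
def sg (b : Bool) : ℝ := if b then 1 else -1

theorem sg_sq (b : Bool) : sg b * sg b = 1 := by
  cases b <;> simp [sg]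

theorem sg_abs (b : Bool) : |sg b| = 1 := by
  cases b <;> simp [sg]

theorem sg_not (b : Bool) : sg (!b) = - sg b := by
  cases b <;> simp [sg]

/-- the value of an edge -/
def ev (t : Fin n → Bool) : Sym2 (Fin n) → ℝ :=
  Sym2.lift ⟨fun a b => sg (t a) * sg (t b), fun _ _ => mul_comm _ _⟩

@[simp] theorem ev_mk (t : Fin n → Bool) (a b : Fin n) : ev t s(a, b) = sg (t a) * sg (t b) := rfl

theorem ev_abs (t : Fin n → Bool) (e : Sym2 (Fin n)) : |ev t e| = 1 := by
  induction e using Sym2.ind with
  | _ a b => rw [ev_mk, abs_mul, sg_abs, sg_abs, mul_one]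

theorem ev_sq (t : Fin n → Bool) (e : Sym2 (Fin n)) : ev t e * ev t e = 1 := by
  have h := ev_abs t e
  have h2 : |ev t e| * |ev t e| = 1 := by rw [h, mul_one]
  rwa [abs_mul_abs_self] at h2

/-- expectation over the signs -/
noncomputable def EE (g : (Fin n → Bool) → ℝ) : ℝ := (∑ t, g t) / 2 ^ n

theorem EE_add (g h : (Fin n → Bool) → ℝ) : EE (fun t => g t + h t) = EE g + EE h := by
  unfold EE
  rw [sum_add_distrib, add_div]

theorem EE_const_mul (c : ℝ) (g : (Fin n → Bool) → ℝ) : EE (fun t => c * g t) = c * EE g := by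
  unfold EE
  rw [← mul_sum, mul_div_assoc]

theorem EE_sum {ι : Type} (s : Finset ι) (g : ι → (Fin n → Bool) → ℝ) :
    EE (fun t => ∑ i ∈ s, g i t) = ∑ i ∈ s, EE (g i) := by
  unfold EE
  rw [sum_comm, sum_div]

theorem EE_one : EE (fun _ : Fin n → Bool => (1 : ℝ)) = 1 := by
  unfold EE
  rw [sum_const, card_univ]
  simp

theorem EE_le {g h : (Fin n → Bool) → ℝ} (hgh : ∀ t, g t ≤ h t) : EE g ≤ EE h := by
  unfold EE
  exact div_le_div_of_nonneg_right (sum_le_sum fun t _ => hgh t) (by positivity)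

/-- If flipping the sign at `a` negates `g`, its expectation vanishes. -/
theorem EE_flip (a : Fin n) (g : (Fin n → Bool) → ℝ)
    (hg : ∀ t, g (Function.update t a (!(t a))) = - g t) : EE g = 0 := by
  unfold EE
  have h : ∑ t, g t = ∑ t, g (Function.update t a (!(t a))) := by
    have hinv : Function.Involutive
        (fun t : Fin n → Bool => Function.update t a (!(t a))) := by
      intro t
      funext i
      by_cases hi : i = a
      · subst hi; simp
      · simp [hi]
    exact (Equiv.sum_comp hinv.toPerm g).symm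
  simp_rw [hg] at h
  rw [sum_neg_distrib] at h
  have h2 : ∑ t, g t = 0 := by linarith
  rw [h2, zero_div]

theorem sg_update_self (t : Fin n → Bool) (a : Fin n) :
    sg (Function.update t a (!(t a)) a) = - sg (t a) := by
  rw [Function.update_self, sg_not]

theorem sg_update_ne (t : Fin n → Bool) {a b : Fin n} (h : b ≠ a) :
    sg (Function.update t a (!(t a)) b) = sg (t b) := by
  rw [Function.update_of_ne h]

theorem EE_two {a b : Fin n} (h : a ≠ b) : EE (fun t => sg (t a) * sg (t b)) = 0 := by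
  apply EE_flip a
  intro t
  rw [sg_update_self, sg_update_ne t h.symm]
  ring

theorem EE_four {a b c d : Fin n} (h1 : a ≠ b) (h2 : a ≠ c) (h3 : a ≠ d) :
    EE (fun t => sg (t a) * sg (t b) * (sg (t c) * sg (t d))) = 0 := by
  apply EE_flip a
  intro t
  rw [sg_update_self, sg_update_ne t h1.symm, sg_update_ne t h2.symm, sg_update_ne t h3.symm]
  ring

/-- `ψ(P)` -/
noncomputable def psi (ε : ℝ) (P : Finset (Sym2 (Fin n))) : ℝ :=
  EE fun t => ∏ e ∈ P, (1 - ε * ev t e)

theorem EE_ev {e : Sym2 (Fin n)} (he : ¬ e.IsDiag) : EE (fun t => ev t e) = 0 := by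
  induction e using Sym2.ind with
  | _ a b =>
    simp only [ev_mk]
    exact EE_two (by simpa using he)

theorem EE_ev_mul {e e' : Sym2 (Fin n)} (he : ¬ e.IsDiag) (he' : ¬ e'.IsDiag) (hne : e ≠ e') :
    EE (fun t => ev t e * ev t e') = 0 := by
  induction e using Sym2.ind with
  | _ a b =>
    induction e' using Sym2.ind with
    | _ c d =>
      simp only [ev_mk]
      have hab : a ≠ b := by simpa using he
      have hcd : c ≠ d := by simpa using he'
      by_cases hac : a = c
      · subst hac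
        have hbd : b ≠ d := fun h => hne (by rw [h])
        have : ∀ t : Fin n → Bool, sg (t a) * sg (t b) * (sg (t a) * sg (t d)) =
            sg (t b) * sg (t d) := by
          intro t
          have := sg_sq (t a)
          linear_combination (sg (t b) * sg (t d)) * this
        simp_rw [this]
        exact EE_two hbd
      · by_cases had : a = d
        · subst had
          have hbc : b ≠ c := fun h => hne (by rw [h, Sym2.eq_swap])
          have : ∀ t : Fin n → Bool, sg (t a) * sg (t b) * (sg (t c) * sg (t a)) =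
              sg (t b) * sg (t c) := by
            intro t
            have := sg_sq (t a)
            linear_combination (sg (t b) * sg (t c)) * this
          simp_rw [this]
          exact EE_two hbc
        · exact EE_four hab hac had

theorem psi_empty (ε : ℝ) : psi ε (∅ : Finset (Sym2 (Fin n))) = 1 := by
  unfold psi
  simp only [prod_empty]
  exact EE_one

theorem psi_single (ε : ℝ) {e : Sym2 (Fin n)} (he : ¬ e.IsDiag) : psi ε {e} = 1 := by
  unfold psi
  simp only [prod_singleton]
  have : (fun t : Fin n → Bool => 1 - ε * ev t e) = fun t => 1 + (-ε) * ev t e := by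
    funext t; ring
  rw [this, EE_add (fun _ => 1) (fun t => (-ε) * ev t e), EE_const_mul, EE_one, EE_ev he]
  ring

theorem psi_pair (ε : ℝ) {e e' : Sym2 (Fin n)} (he : ¬ e.IsDiag) (he' : ¬ e'.IsDiag)
    (hne : e ≠ e') : psi ε {e, e'} = 1 := by
  unfold psi
  simp only [prod_pair hne]
  have : (fun t : Fin n → Bool => (1 - ε * ev t e) * (1 - ε * ev t e')) =
      fun t => (1 + (-ε) * ev t e) + ((-ε) * ev t e' + ε ^ 2 * (ev t e * ev t e')) := by
    funext t; ring
  rw [this, EE_add (fun t => 1 + (-ε) * ev t e)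
    (fun t => (-ε) * ev t e' + ε ^ 2 * (ev t e * ev t e')),
    EE_add (fun _ => 1) (fun t => (-ε) * ev t e),
    EE_add (fun t => (-ε) * ev t e') (fun t => ε ^ 2 * (ev t e * ev t e')),
    EE_const_mul, EE_const_mul, EE_const_mul, EE_one, EE_ev he, EE_ev he', EE_ev_mul he he' hne]
  ring

theorem psi_le (ε : ℝ) (h0 : 0 ≤ ε) (h1 : ε ≤ 1) (P : Finset (Sym2 (Fin n)))
    (hP : ∀ e ∈ P, ¬ e.IsDiag) : psi ε P ≤ 1 + 2 ^ P.card * ε ^ 3 := by
  classical
  unfold psi
  have hexp : ∀ t : Fin n → Bool, ∏ e ∈ P, (1 - ε * ev t e) =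
      ∑ Q ∈ P.powerset, ∏ e ∈ Q, (-ε * ev t e) := by
    intro t
    rw [← prod_one_add]
    apply prod_congr rfl
    intro e _
    ring
  simp_rw [hexp]
  rw [EE_sum]
  have hterm : ∀ Q ∈ P.powerset, EE (fun t => ∏ e ∈ Q, (-ε * ev t e)) ≤
      (if Q = ∅ then 1 else 0) + ε ^ 3 := by
    intro Q hQ
    rw [mem_powerset] at hQ
    have hε3 : 0 ≤ ε ^ 3 := pow_nonneg h0 3
    by_cases hc0 : Q = ∅
    · subst hc0
      simp only [prod_empty, if_true]
      rw [EE_one]
      linarith
    · rw [if_neg hc0, zero_add]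
      have hpos : 0 < Q.card := card_pos.2 (nonempty_iff_ne_empty.2 hc0)
      by_cases hc1 : Q.card = 1
      · obtain ⟨e, rfl⟩ := card_eq_one.1 hc1
        simp only [prod_singleton]
        rw [EE_const_mul, EE_ev (hP e (hQ (mem_singleton_self e)))]
        simpa using hε3
      · by_cases hc2 : Q.card = 2
        · obtain ⟨e, e', hne, rfl⟩ := card_eq_two.1 hc2
          simp only [prod_pair hne]
          have : (fun t : Fin n → Bool => (-ε * ev t e) * (-ε * ev t e')) =
              fun t => ε ^ 2 * (ev t e * ev t e') := by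
            funext t; ring
          rw [this, EE_const_mul, EE_ev_mul (hP e (hQ (by simp))) (hP e' (hQ (by simp))) hne]
          simpa using hε3
        · have h3 : 3 ≤ Q.card := by omega
          have hle : EE (fun t => ∏ e ∈ Q, (-ε * ev t e)) ≤
              EE (fun _ : Fin n → Bool => ε ^ 3 * 1) := by
            apply EE_le
            intro t
            rw [mul_one]
            refine le_trans (le_abs_self _) ?_
            rw [abs_prod]
            have : ∀ e ∈ Q, |-ε * ev t e| = ε := by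
              intro e _
              rw [abs_mul, abs_neg, abs_of_nonneg h0, ev_abs, mul_one]
            rw [prod_congr rfl this, prod_const]
            exact pow_le_pow_of_le_one h0 h1 h3
          rw [EE_const_mul, EE_one, mul_one] at hle
          exact hle
  refine (sum_le_sum hterm).trans ?_
  rw [sum_add_distrib, sum_ite_eq', if_pos (empty_mem_powerset P), sum_const, card_powerset]
  simp

/-! ### triangles and four-cycles -/

theorem psi_triangle (ε : ℝ) {a b c : Fin n} (hab : a ≠ b) (hbc : b ≠ c) (hac : a ≠ c) :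
    psi ε {s(a, b), s(b, c), s(a, c)} = 1 - ε ^ 3 := by
  unfold psi
  have h1 : s(a, b) ∉ ({s(b, c), s(a, c)} : Finset (Sym2 (Fin n))) := by
    simp [hab, hbc, hac, hab.symm, hbc.symm, hac.symm]
  have h2 : s(b, c) ∉ ({s(a, c)} : Finset (Sym2 (Fin n))) := by
    simp [hab, hbc, hac, hab.symm, hbc.symm, hac.symm]
  simp only [prod_insert h1, prod_insert h2, prod_singleton, ev_mk]
  have : (fun t : Fin n → Bool => (1 - ε * (sg (t a) * sg (t b))) *
      ((1 - ε * (sg (t b) * sg (t c))) * (1 - ε * (sg (t a) * sg (t c))))) =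
      fun t => (1 - ε ^ 3) * 1 + ((ε ^ 2 - ε) * (sg (t a) * sg (t b)) +
        ((ε ^ 2 - ε) * (sg (t b) * sg (t c)) + (ε ^ 2 - ε) * (sg (t a) * sg (t c)))) := by
    funext t
    have ha := sg_sq (t a)
    have hb := sg_sq (t b)
    have hc := sg_sq (t c)
    set x := sg (t a)
    set y := sg (t b)
    set z := sg (t c)
    linear_combination (ε ^ 2 * y * z - ε ^ 3 * y * y * z * z) * ha +
      (ε ^ 2 * x * z - ε ^ 3 * z * z) * hb + (ε ^ 2 * x * y - ε ^ 3) * hc
  rw [this, EE_add (fun t => (1 - ε ^ 3) * 1) _, EE_add (fun t => (ε ^ 2 - ε) * (sg (t a) * sg (t b))) _,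
    EE_add (fun t => (ε ^ 2 - ε) * (sg (t b) * sg (t c))) _, EE_const_mul, EE_const_mul,
    EE_const_mul, EE_const_mul, EE_one, EE_two hab, EE_two hbc, EE_two hac]
  ring

theorem psi_four (ε : ℝ) {a b c d : Fin n} (hab : a ≠ b) (hac : a ≠ c) (had : a ≠ d)
    (hbc : b ≠ c) (hbd : b ≠ d) (hcd : c ≠ d) :
    psi ε {s(a, b), s(b, c), s(c, d), s(a, d)} = 1 + ε ^ 4 := by
  unfold psi
  have h1 : s(a, b) ∉ ({s(b, c), s(c, d), s(a, d)} : Finset (Sym2 (Fin n))) := by
    simp [hab, hbc, hac, hab.symm, hbc.symm, hac.symm, had, hbd, hcd, had.symm, hbd.symm,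
      hcd.symm]
  have h2 : s(b, c) ∉ ({s(c, d), s(a, d)} : Finset (Sym2 (Fin n))) := by
    simp [hab, hbc, hac, hab.symm, hbc.symm, hac.symm, had, hbd, hcd, had.symm, hbd.symm,
      hcd.symm]
  have h3 : s(c, d) ∉ ({s(a, d)} : Finset (Sym2 (Fin n))) := by
    simp [hab, hbc, hac, hab.symm, hbc.symm, hac.symm, had, hbd, hcd, had.symm, hbd.symm,
      hcd.symm]
  simp only [prod_insert h1, prod_insert h2, prod_insert h3, prod_singleton, ev_mk]
  have : (fun t : Fin n → Bool => (1 - ε * (sg (t a) * sg (t b))) *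
      ((1 - ε * (sg (t b) * sg (t c))) * ((1 - ε * (sg (t c) * sg (t d))) *
        (1 - ε * (sg (t a) * sg (t d)))))) =
      fun t => (1 + ε ^ 4) * 1 + ((-ε - ε ^ 3) * (sg (t a) * sg (t b)) +
        ((-ε - ε ^ 3) * (sg (t b) * sg (t c)) + ((-ε - ε ^ 3) * (sg (t c) * sg (t d)) +
        ((-ε - ε ^ 3) * (sg (t a) * sg (t d)) + (2 * ε ^ 2 * (sg (t a) * sg (t c)) +
        (2 * ε ^ 2 * (sg (t b) * sg (t d)) +
          2 * ε ^ 2 * (sg (t a) * sg (t b) * (sg (t c) * sg (t d))))))))) := by
    funext t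
    have ha := sg_sq (t a)
    have hb := sg_sq (t b)
    have hc := sg_sq (t c)
    have hd := sg_sq (t d)
    set x := sg (t a)
    set y := sg (t b)
    set z := sg (t c)
    set w := sg (t d)
    linear_combination
      (ε ^ 2 * y * w - ε ^ 3 * y * y * z * w - ε ^ 3 * y * z * w * w +
        ε ^ 4 * y * y * z * z * w * w) * ha +
      (ε ^ 2 * x * z - ε ^ 3 * x * z * z * w - ε ^ 3 * z * w + ε ^ 4 * z * z * w * w) * hb +
      (ε ^ 2 * y * w - ε ^ 3 * x * y * w * w - ε ^ 3 * x * w + ε ^ 4 * w * w) * hc +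
      (ε ^ 2 * x * z - ε ^ 3 * y * z - ε ^ 3 * x * y + ε ^ 4) * hd
  rw [this, EE_add (fun t => (1 + ε ^ 4) * 1) _,
    EE_add (fun t => (-ε - ε ^ 3) * (sg (t a) * sg (t b))) _,
    EE_add (fun t => (-ε - ε ^ 3) * (sg (t b) * sg (t c))) _,
    EE_add (fun t => (-ε - ε ^ 3) * (sg (t c) * sg (t d))) _,
    EE_add (fun t => (-ε - ε ^ 3) * (sg (t a) * sg (t d))) _,
    EE_add (fun t => 2 * ε ^ 2 * (sg (t a) * sg (t c))) _,
    EE_add (fun t => 2 * ε ^ 2 * (sg (t b) * sg (t d))) _]
  simp only [EE_const_mul]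
  rw [EE_one, EE_two hab, EE_two hbc, EE_two hcd, EE_two had, EE_two hac, EE_two hbd,
    EE_four hab hac had]
  ring

end Pool.Agent.X51.SparseTri
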